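import Pool.Agent.N689.ZL.Par3

/-!
# Standard parabolic subgroups of Artin groups, part 4: the theorem of van der Lek
-/

set_option autoImplicit false

namespace Pool.Agent.N689.ZL.Par

open CoxeterSystem Pool.Agent.Helper741

section altr

/-- Alternating product with `k` factors and the last factor `a`. -/
def altr {G : Type} [Monoid G] : G → G → ℕ → G
  | _, _, 0 => 1
  | a, b, (k + 1) => altr b a k * a

lemma altr_succ {G : Type} [Monoid G] (a b : G) (k : ℕ) : altr a b (k + 1) = altr b a k * a := by
  rw [altr]

lemma altr_succ' {G : Type} [Monoid G] (a b : G) (k : ℕ) :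
    altr a b (k + 1) = (if Even k then a else b) * altr a b k := by
  induction k generalizing a b with
  | zero => simp [altr]
  | succ k ih =>
    rw [altr_succ, ih b a, altr_succ a b k, mul_assoc]
    congr 1
    by_cases h : Even k
    · simp [h, Nat.even_add_one]
    · simp [h, Nat.even_add_one]

lemma altr_eq {G : Type} [Monoid G] (a b : G) (k : ℕ) :
    altr a b k = if Even k then alt b a k else alt a b k := by
  induction k with
  | zero => simp [altr]
  | succ k ih =>
    rw [altr_succ', ih]
    by_cases h : Even k
    · rw [if_pos h, if_pos h, if_neg (by simpa [Nat.even_add_one] using h), alt_succ]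
    · rw [if_neg h, if_neg h, if_pos (by simpa [Nat.even_add_one] using h), alt_succ]

lemma altr_word {G B : Type} [Monoid G] (f : B → G) (a b : B) (k : ℕ) :
    ∃ ω : List B, altr (f a) (f b) k = (ω.map f).prod := by
  induction k generalizing a b with
  | zero => exact ⟨[], by simp [altr]⟩
  | succ k ih =>
    obtain ⟨ω, h⟩ := ih b a
    exact ⟨ω ++ [a], by rw [altr_succ, h]; simp⟩

end altr

variable {B B' : Type} {M : CoxeterMatrix B} [Fintype B] [DecidableEq B]
variable [Fintype B'] [DecidableEq B'] {M' : CoxeterMatrix B'}
variable {W : Type} [Group W] (cs : CoxeterSystem M W)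

/-- The relation at a neighbour. -/
theorem rel_step (ι : B' → B) (a a' : B) (n : ℕ) (x : Q cs ι)
    (hx : ∀ g, altr (step cs M' ι a) (step cs M' ι a') (n + 1) (x, g) =
      altr (step cs M' ι a') (step cs M' ι a) (n + 1) (x, g))
    (h : cs.simple a * (x : W) ∈ Q cs ι) (g : Artin M') :
    altr (step cs M' ι a) (step cs M' ι a') (n + 1) (⟨_, h⟩, g) =
      altr (step cs M' ι a') (step cs M' ι a) (n + 1) (⟨_, h⟩, g) := by
  classical
  set y : Q cs ι := ⟨_, h⟩ with hy
  have e1 : ∀ g, step cs M' ι a (x, g) = (y, g) := fun g => step_pos cs M' ι a x g h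
  have e2 : ∀ g, step cs M' ι a (y, g) = (x, g) := by
    intro g
    rw [step_pos cs M' ι a y g (back cs ι x a)]
    congr 1
    apply Subtype.ext
    exact cs.simple_mul_simple_cancel_left a
  set e : B := if Even n then a' else a with he
  have e3 : altr (step cs M' ι a') (step cs M' ι a) (n + 1) =
      step cs M' ι e * altr (step cs M' ι a') (step cs M' ι a) n := by
    rw [altr_succ', he]
    by_cases hn : Even n
    · rw [if_pos hn, if_pos hn]
    · rw [if_neg hn, if_neg hn]
  -- left hand side
  have l1 : altr (step cs M' ι a) (step cs M' ι a') (n + 1) (y, g) =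
      altr (step cs M' ι a') (step cs M' ι a) n (x, g) := by
    rw [altr_succ, Equiv.Perm.mul_apply, e2]
  -- the word `altr a' a n` at `y`
  have l2 : altr (step cs M' ι a') (step cs M' ι a) n (y, g) =
      step cs M' ι e (altr (step cs M' ι a') (step cs M' ι a) n (x, g)) := by
    rw [← e1 g, ← Equiv.Perm.mul_apply, ← altr_succ, hx g, e3, Equiv.Perm.mul_apply]
  rw [l1, e3, Equiv.Perm.mul_apply, l2]
  set z := altr (step cs M' ι a') (step cs M' ι a) n (x, g) with hz
  by_cases hez : cs.simple e * (z.1 : W) ∈ Q cs ι
  · obtain ⟨z1, z2⟩ := z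
    rw [step_pos cs M' ι e z1 z2 hez, step_pos cs M' ι e _ z2 (back cs ι z1 e)]
    congr 1
    apply Subtype.ext
    exact (cs.simple_mul_simple_cancel_left e).symm
  · exfalso
    have l3 : (altr (step cs M' ι a') (step cs M' ι a) n (y, g)).1 =
        (altr (step cs M' ι a') (step cs M' ι a) n (x, g)).1 := by
      rw [l2]
      change (step cs M' ι e (z.1, z.2)).1 = z.1
      rw [step_neg cs M' ι e z.1 z.2 hez]
    obtain ⟨ω, hω⟩ := altr_word (step cs M' ι) a' a n
    rw [hω] at l3
    have h4 := word_inj cs M' ι ω y x g g l3
    have h5 : cs.simple a * (x : W) = x := congrArg Subtype.val h4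
    have h6 : cs.simple a = 1 := by
      have := mul_right_cancel (h5.trans (one_mul (x : W)).symm)
      exact this
    have h7 := cs.length_simple a
    rw [h6, cs.length_one] at h7
    omega

/-- The braid relations hold everywhere. -/
theorem rel_all {ι : B' → B} (hι : Function.Injective ι)
    (hM : ∀ i j, M' i j = M (ι i) (ι j)) {b c : B} (hbc : b ≠ c) (h0 : M b c ≠ 0) :
    ∀ (N : ℕ) (x : Q cs ι), cs.length (x : W) = N → ∀ g : Artin M',
      altr (step cs M' ι b) (step cs M' ι c) (M b c) (x, g) =
        altr (step cs M' ι c) (step cs M' ι b) (M b c) (x, g) := by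
  obtain ⟨n, hn⟩ : ∃ n, M b c = n + 1 := ⟨M b c - 1, by omega⟩
  intro N
  induction N using Nat.strong_induction_on with
  | _ N ih =>
  intro x hx g
  -- descending
  have desc : ∀ a : B, cs.length (cs.simple a * (x : W)) < cs.length (x : W) →
      cs.simple a * (x : W) ∈ Q cs ι := by
    intro a ha
    rcases deodhar cs ι x.2 a with h | ⟨t, ht⟩
    · exact h
    · exfalso
      have := x.2 t
      rw [← ht] at this
      omega
  by_cases hb : cs.length (cs.simple b * (x : W)) < cs.length (x : W)
  · have hmem := desc b hb
    have h1 := rel_step cs (M' := M') ι b c n ⟨_, hmem⟩ (fun g => by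
      rw [← hn]; exact ih _ (by rw [← hx]; exact hb) ⟨_, hmem⟩ rfl g) (back cs ι x b) g
    rw [← hn] at h1
    have hxe : (⟨cs.simple b * (cs.simple b * (x : W)), back cs ι x b⟩ : Q cs ι) = x :=
      Subtype.ext (cs.simple_mul_simple_cancel_left b)
    rw [hxe] at h1
    exact h1
  · by_cases hc : cs.length (cs.simple c * (x : W)) < cs.length (x : W)
    · have hmem := desc c hc
      have h1 := rel_step cs (M' := M') ι c b n ⟨_, hmem⟩ (fun g => by
        rw [← hn]; exact (ih _ (by rw [← hx]; exact hc) ⟨_, hmem⟩ rfl g).symm) (back cs ι x c) g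
      rw [← hn] at h1
      have hxe : (⟨cs.simple c * (cs.simple c * (x : W)), back cs ι x c⟩ : Q cs ι) = x :=
        Subtype.ext (cs.simple_mul_simple_cancel_left c)
      rw [hxe] at h1
      exact h1.symm
    · have hb' : cs.length (x : W) < cs.length (cs.simple b * (x : W)) := by
        rcases cs.length_simple_mul (x : W) b with h | h <;> omega
      have hc' : cs.length (x : W) < cs.length (cs.simple c * (x : W)) := by
        rcases cs.length_simple_mul (x : W) c with h | h <;> omega
      have h1 := rel_min cs hι hM hbc h0 x hb' hc' g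
      rw [altr_eq, altr_eq]
      by_cases he : Even (M b c)
      · rw [if_pos he, if_pos he]; exact h1.symm
      · rw [if_neg he, if_neg he]; exact h1

/-- The action of the Artin group. -/
noncomputable def actHom {ι : B' → B} (hι : Function.Injective ι)
    (hM : ∀ i j, M' i j = M (ι i) (ι j)) : Artin M →* Equiv.Perm (Q cs ι × Artin M') :=
  Artin.lift (step cs M' ι) (by
    intro b c
    by_cases hbc : b = c
    · rw [hbc]
    by_cases h0 : M b c = 0
    · rw [h0]; simp
    apply Equiv.ext
    rintro ⟨x, g⟩
    have h1 := rel_all cs hι hM hbc h0 _ x rfl g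
    rw [altr_eq, altr_eq] at h1
    by_cases he : Even (M b c)
    · rw [if_pos he, if_pos he] at h1; exact h1.symm
    · rw [if_neg he, if_neg he] at h1; exact h1)

/-- The map between Artin groups that belongs to an embedding of Coxeter matrices. -/
def par (ι : B' → B) (hM : ∀ i j, M' i j = M (ι i) (ι j)) : Artin M' →* Artin M :=
  Artin.lift (fun i => Artin.gen M (ι i)) (fun i j => by rw [hM]; exact Artin.rel (ι i) (ι j))

/-- **Theorem of van der Lek**: standard parabolic subgroups of Artin groups are Artin groups. -/
theorem par_injective {ι : B' → B} (hι : Function.Injective ι)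
    (hM : ∀ i j, M' i j = M (ι i) (ι j)) : Function.Injective (par (M := M) ι hM) := by
  classical
  let cs := M.toCoxeterSystem
  have h1Q : (1 : M.Group) ∈ Q cs ι := by
    intro i
    rw [one_mul, cs.length_one, cs.length_simple]
    exact one_pos
  let e : Q cs ι := ⟨1, h1Q⟩
  have key : ∀ (x g : Artin M'), actHom cs hι hM (par (M := M) ι hM x) (e, g) = (e, x * g) := by
    intro x
    induction x using Artin.induction with
    | one => intro g; simp
    | gen i =>
      intro g
      have hnot : cs.simple (ι i) * (e : M.Group) ∉ Q cs ι := by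
        intro h
        have h2 := h i
        change cs.length (cs.simple (ι i) * 1) < cs.length (cs.simple (ι i) * 1 * cs.simple (ι i)) at h2
        rw [mul_one, cs.simple_mul_simple_self, cs.length_one, cs.length_simple] at h2
        omega
      have hout : out cs ι e (ι i) hnot = i := by
        have h3 := out_spec cs ι e (ι i) hnot
        change cs.simple (ι i) * 1 = 1 * cs.simple (ι _) at h3
        rw [mul_one, one_mul] at h3
        exact (hι (simple_injective cs h3)).symm
      have h4 : actHom cs hι hM (par (M := M) ι hM (Artin.gen M' i)) = step cs M' ι (ι i) := by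
        simp [par, actHom]
      rw [h4, step_neg cs M' ι (ι i) e g hnot, hout]
    | mul x y hx hy =>
      intro g
      rw [map_mul, map_mul, Equiv.Perm.mul_apply, hy, hx, mul_assoc]
    | inv x hx =>
      intro g
      rw [map_inv, map_inv, Equiv.Perm.inv_eq_iff_eq, hx, mul_inv_cancel_left]
  rw [injective_iff_map_eq_one]
  intro x hx
  have h := key x 1
  rw [hx, map_one, Equiv.Perm.one_apply, mul_one] at h
  exact ((Prod.ext_iff.1 h).2).symm

end Pool.Agent.N689.ZL.Par
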