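import Pool.Agent.N689.ZL.Stm

/-!
Leaf DOVE of the project ZL of helper689: dovetailing (helper31).
-/

set_option autoImplicit false

namespace Pool.Agent.N689.ZL

open Encodable Nat.Partrec Computable

theorem t_DOVE : DOVE := by
  intro α β σ _ _ _ f hf
  obtain ⟨c, hc⟩ := Code.exists_code.1 hf
  have hcv : ∀ (p : α × β) (x : ℕ), x ∈ Code.eval c (encode p) ↔ ∃ s ∈ f p, encode s = x := by
    intro p x
    rw [hc]
    simp only [encodek, Part.coe_some, Part.bind_some, Part.mem_map_iff]
  let h : α → ℕ → Option σ := fun a s => (decode (α := β × ℕ) s).bind fun bt =>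
    (Code.evaln bt.2 c (encode (a, bt.1))).bind fun x => decode (α := σ) x
  have hh : Computable₂ h := by
    show Computable fun p : α × ℕ => (decode (α := β × ℕ) p.2).bind fun bt =>
      (Code.evaln bt.2 c (encode (p.1, bt.1))).bind fun x => decode (α := σ) x
    refine Computable.option_bind (Computable.decode.comp Computable.snd) ?_
    refine Computable.option_bind ?_ (Computable.decode.comp Computable.snd).to₂
    exact Code.primrec_evaln.to_comp.comp
      (((Computable.snd.comp Computable.snd).pair (Computable.const c)).pair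
        (Computable.encode.comp ((Computable.fst.comp Computable.fst).pair
          (Computable.fst.comp Computable.snd))))
  have hs : ∀ a n s, s ∈ h a n → ∃ b, s ∈ f (a, b) := by
    intro a n s hs
    obtain ⟨⟨b, t⟩, hb, hs⟩ := Option.mem_bind_iff.1 hs
    obtain ⟨x, hx, hs⟩ := Option.mem_bind_iff.1 hs
    obtain ⟨s', hs', hxs⟩ := (hcv (a, b) x).1 (Code.evaln_sound hx)
    refine ⟨b, ?_⟩
    have : s' = s := by
      rw [← hxs, Option.mem_def, encodek] at hs
      exact Option.some_inj.1 hs
    rwa [this] at hs'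
  refine ⟨fun a => Nat.rfindOpt (h a), Partrec.rfindOpt hh, fun a b hd => ?_, fun a s hsa => ?_⟩
  · rw [Nat.rfindOpt_dom]
    obtain ⟨s, hs'⟩ := Part.dom_iff_mem.1 hd
    obtain ⟨k, hk⟩ := Code.evaln_complete.1 ((hcv (a, b) (encode s)).2 ⟨s, hs', rfl⟩)
    refine ⟨encode (b, k), s, ?_⟩
    refine Option.mem_bind_iff.2 ⟨(b, k), by rw [Option.mem_def, encodek], ?_⟩
    exact Option.mem_bind_iff.2 ⟨encode s, hk, by rw [Option.mem_def, encodek]⟩
  · obtain ⟨n, hn⟩ := Nat.rfindOpt_spec hsa
    exact hs a n s hn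

end Pool.Agent.N689.ZL
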