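import Pool.Agent.N689.ZL.Stm

/-!
# ZL/EMBC: the condition `Emb` and the renaming are computable (helper624)
-/

set_option autoImplicit false

namespace Pool.Agent.N689.ZL

theorem EMBC_forall_lt {β : Type} [Primcodable β] {R : ℕ → β → Prop} (hR : PrimrecRel R)
    {f : β → ℕ} (hf : Primrec f) : PrimrecPred fun b => ∀ i < f b, R i b :=
  (hR.forall_mem_list.comp (Primrec.list_range.comp hf) Primrec.id).of_eq (by simp)

theorem EMBC_pos : Primrec₂ pos := by
  have h1 : Primrec fun n : ℕ => n.choose 2 :=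
    (Primrec.nat_div.comp (Primrec.nat_mul.comp Primrec.id
      (Primrec.nat_sub.comp Primrec.id (Primrec.const 1))) (Primrec.const 2)).of_eq
      fun n => (Nat.choose_two_right n).symm
  exact (Primrec.nat_add.comp (h1.comp Primrec.nat_max) Primrec.nat_min).to₂

theorem EMBC_getD {α : Type} [Primcodable α] {f : α → List ℕ} {g : α → ℕ} (hf : Primrec f)
    (hg : Primrec g) : Primrec fun a => (f a).getD (g a) 0 :=
  (Primrec.list_getD 0).comp hf hg

/-- The parameters. -/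
abbrev EMBC_T : Type := Input × (ℕ × List ℕ × List ℕ)

theorem EMBC_k : Primrec (fun p : EMBC_T => p.1.1) := Primrec.fst.comp Primrec.fst
theorem EMBC_x : Primrec (fun p : EMBC_T => p.1.2.1) :=
  Primrec.fst.comp (Primrec.snd.comp Primrec.fst)
theorem EMBC_w : Primrec (fun p : EMBC_T => p.1.2.2) :=
  Primrec.snd.comp (Primrec.snd.comp Primrec.fst)
theorem EMBC_n : Primrec (fun p : EMBC_T => p.2.1) := Primrec.fst.comp Primrec.snd
theorem EMBC_y : Primrec (fun p : EMBC_T => p.2.2.1) :=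
  Primrec.fst.comp (Primrec.snd.comp Primrec.snd)
theorem EMBC_phi : Primrec (fun p : EMBC_T => p.2.2.2) :=
  Primrec.snd.comp (Primrec.snd.comp Primrec.snd)

theorem EMBC_emb : PrimrecPred fun p : EMBC_T =>
    Emb p.1.1 p.1.2.1 p.2.1 p.2.2.1 p.2.2.2 := by
  have h1 : PrimrecRel fun (i : ℕ) (p : EMBC_T) => p.2.2.2.getD i 0 < p.2.1 :=
    Primrec.nat_lt.comp (EMBC_getD (EMBC_phi.comp Primrec.snd) Primrec.fst)
      (EMBC_n.comp Primrec.snd)
  have h2 : PrimrecRel fun (i : ℕ) (q : ℕ × EMBC_T) =>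
      q.2.2.2.2.getD i 0 < q.2.2.2.2.getD q.1 0 ∧
        q.2.2.2.1.getD (pos (q.2.2.2.2.getD i 0) (q.2.2.2.2.getD q.1 0)) 0 =
          q.2.1.2.1.getD (pos i q.1) 0 := by
    have hi : Primrec fun z : ℕ × ℕ × EMBC_T => z.1 := Primrec.fst
    have hj : Primrec fun z : ℕ × ℕ × EMBC_T => z.2.1 := Primrec.fst.comp Primrec.snd
    have hp : Primrec fun z : ℕ × ℕ × EMBC_T => z.2.2 := Primrec.snd.comp Primrec.snd
    have ha : Primrec fun z : ℕ × ℕ × EMBC_T => z.2.2.2.2.2.getD z.1 0 :=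
      EMBC_getD (EMBC_phi.comp hp) hi
    have hb : Primrec fun z : ℕ × ℕ × EMBC_T => z.2.2.2.2.2.getD z.2.1 0 :=
      EMBC_getD (EMBC_phi.comp hp) hj
    have hc : Primrec fun z : ℕ × ℕ × EMBC_T =>
        z.2.2.2.2.1.getD (pos (z.2.2.2.2.2.getD z.1 0) (z.2.2.2.2.2.getD z.2.1 0)) 0 :=
      EMBC_getD (EMBC_y.comp hp) (EMBC_pos.comp ha hb)
    have hd : Primrec fun z : ℕ × ℕ × EMBC_T => z.2.2.1.2.1.getD (pos z.1 z.2.1) 0 :=
      EMBC_getD (EMBC_x.comp hp) (EMBC_pos.comp hi hj)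
    exact (Primrec.nat_lt.comp ha hb).and (Primrec.eq.comp hc hd)
  have h3 : PrimrecRel fun (j : ℕ) (p : EMBC_T) => ∀ i < j,
      p.2.2.2.getD i 0 < p.2.2.2.getD j 0 ∧
        p.2.2.1.getD (pos (p.2.2.2.getD i 0) (p.2.2.2.getD j 0)) 0 = p.1.2.1.getD (pos i j) 0 :=
    EMBC_forall_lt h2 Primrec.fst
  exact (EMBC_forall_lt h1 EMBC_k).and (EMBC_forall_lt h3 EMBC_k)

theorem EMBC_ren : Primrec fun p : EMBC_T => ren p.1.1 p.2.2.2 p.1.2.2 := by
  refine Primrec.list_flatMap EMBC_w ?_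
  refine Primrec.ite (Primrec.nat_lt.comp (Primrec.fst.comp Primrec.snd)
    (EMBC_k.comp Primrec.fst)) ?_ (Primrec.const [])
  exact Primrec.list_cons.comp (Primrec.pair
    (EMBC_getD (EMBC_phi.comp Primrec.fst) (Primrec.fst.comp Primrec.snd))
    (Primrec.snd.comp Primrec.snd)) (Primrec.const [])

theorem t_EMBC : EMBC := by
  classical
  refine ⟨?_, EMBC_ren.to_comp⟩
  exact EMBC_emb.decide.to_comp

end Pool.Agent.N689.ZL
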