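import Pool.Agent.N689.ZL.Stm2
import Pool.Agent.N689.ZL.Par4
import Pool.Agent.N689.ZL.T_DOVE
import Pool.Agent.N689.ZL.T_EMBC

/-!
# Average case and worst case of the word problem for Artin groups
-/

set_option autoImplicit false

namespace Pool.Agent.N689.ZL

open Pool.Agent.Helper741 (Artin)

lemma pos_comm (i j : ℕ) : pos i j = pos j i := by
  unfold pos
  rw [max_comm, min_comm]

lemma lab_self (x : List ℕ) (i : ℕ) : lab x i i = 1 := by simp [lab]

lemma lab_comm (x : List ℕ) (i j : ℕ) : lab x i j = lab x j i := by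
  unfold lab
  rw [pos_comm]
  by_cases h : i = j
  · rw [if_pos h, if_pos h.symm]
  · rw [if_neg h, if_neg (Ne.symm h)]

lemma lab_ne_one (x : List ℕ) {i j : ℕ} (h : i ≠ j) : lab x i j ≠ 1 := by
  unfold lab
  rw [if_neg h]
  split_ifs with h1
  · omega
  · exact h1

/-- The Coxeter matrix. -/
def mat (n : ℕ) (x : List ℕ) : CoxeterMatrix (Fin n) where
  M := Matrix.of fun i j => lab x i j
  isSymm := by
    ext i j
    simp [lab_comm x j i]
  diagonal := by
    intro i
    simp [lab_self]
  off_diagonal := by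
    intro i j h
    simp only [Matrix.of_apply]
    exact lab_ne_one x (fun h1 => h (Fin.ext h1))

lemma mat_apply (n : ℕ) (x : List ℕ) (i j : Fin n) : mat n x i j = lab x i j := rfl

lemma alt_eq {G : Type} [Group G] (a b : G) (m : ℕ) : alt a b m = Pool.Agent.Helper741.alt a b m :=
  rfl

/-- The two presentations. -/
noncomputable def toArt (n : ℕ) (x : List ℕ) : ArtinGroup n x →* Artin (mat n x) :=
  PresentedGroup.toGroup (f := Artin.gen (mat n x)) (by
    rintro _ ⟨i, j, -, rfl⟩
    rw [map_mul, map_inv, mul_inv_eq_one, alt_eq, alt_eq, Pool.Agent.Helper741.map_alt,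
      Pool.Agent.Helper741.map_alt, FreeGroup.lift_apply_of, FreeGroup.lift_apply_of]
    exact Artin.rel (M := mat n x) i j)

noncomputable def ofArt (n : ℕ) (x : List ℕ) : Artin (mat n x) →* ArtinGroup n x :=
  Artin.lift (fun i => PresentedGroup.of i) (by
    intro i j
    by_cases h : lab x i j = 0
    · rw [mat_apply, h]; simp
    · have h1 : PresentedGroup.mk {r : FreeGroup (Fin n) | ∃ i j : Fin n, lab x i j ≠ 0 ∧
          r = alt (FreeGroup.of i) (FreeGroup.of j) (lab x i j) *
            (alt (FreeGroup.of j) (FreeGroup.of i) (lab x i j))⁻¹}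
          (alt (FreeGroup.of i) (FreeGroup.of j) (lab x i j) *
            (alt (FreeGroup.of j) (FreeGroup.of i) (lab x i j))⁻¹) = 1 := by
        apply PresentedGroup.one_of_mem
        exact ⟨i, j, h, rfl⟩
      rw [map_mul, map_inv, mul_inv_eq_one, alt_eq, alt_eq, Pool.Agent.Helper741.map_alt,
        Pool.Agent.Helper741.map_alt] at h1
      exact h1)

lemma ofArt_toArt (n : ℕ) (x : List ℕ) (g : ArtinGroup n x) : ofArt n x (toArt n x g) = g := by
  have h : (ofArt n x).comp (toArt n x) = MonoidHom.id _ := by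
    apply PresentedGroup.ext
    intro i
    simp [toArt, ofArt]
  exact DFunLike.congr_fun h g

lemma toArt_eq_one (n : ℕ) (x : List ℕ) (g : ArtinGroup n x) : toArt n x g = 1 ↔ g = 1 := by
  constructor
  · intro h
    rw [← ofArt_toArt n x g, h, map_one]
  · rintro rfl
    exact map_one _

/-- The letters in the other presentation. -/
noncomputable def letter' (n : ℕ) (x : List ℕ) (p : ℕ × Bool) : Artin (mat n x) :=
  if h : p.1 < n then
    (if p.2 then Artin.gen (mat n x) ⟨p.1, h⟩ else (Artin.gen (mat n x) ⟨p.1, h⟩)⁻¹) else 1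

lemma toArt_val (n : ℕ) (x : List ℕ) (w : List (ℕ × Bool)) :
    toArt n x (val n x w) = (w.map (letter' n x)).prod := by
  unfold val
  rw [map_list_prod, List.map_map]
  congr 1
  apply List.map_congr_left
  rintro ⟨i, b⟩ -
  simp only [Function.comp_apply, letter, letter']
  by_cases h : i < n
  · cases b <;> simp [h, toArt]
  · simp [h]

lemma lab_lt {k : ℕ} {x : List ℕ} {n : ℕ} {y φ : List ℕ} (h : Emb k x n y φ) {i j : ℕ}
    (hj : j < k) (hij : i < j) : lab x i j = lab y (φ.getD i 0) (φ.getD j 0) := by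
  obtain ⟨h1, h2⟩ := h.2 j hj i hij
  unfold lab
  rw [if_neg hij.ne, if_neg h1.ne, h2]

lemma lab_emb {k : ℕ} {x : List ℕ} {n : ℕ} {y φ : List ℕ} (h : Emb k x n y φ) {i j : ℕ}
    (hi : i < k) (hj : j < k) : lab x i j = lab y (φ.getD i 0) (φ.getD j 0) := by
  rcases lt_trichotomy i j with hij | hij | hij
  · exact lab_lt h hj hij
  · rw [hij, lab_self, lab_self]
  · rw [lab_comm x, lab_comm y, lab_lt h hi hij]

/-- The embedding of the generators. -/
def inc {k : ℕ} {x : List ℕ} {n : ℕ} {y φ : List ℕ} (h : Emb k x n y φ) (i : Fin k) : Fin n :=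
  ⟨φ.getD i 0, h.1 i i.2⟩

lemma inc_mono {k : ℕ} {x : List ℕ} {n : ℕ} {y φ : List ℕ} (h : Emb k x n y φ) :
    StrictMono (inc h) := by
  intro i j hij
  exact (h.2 j j.2 i hij).1

lemma inc_mat {k : ℕ} {x : List ℕ} {n : ℕ} {y φ : List ℕ} (h : Emb k x n y φ) (i j : Fin k) :
    mat k x i j = mat n y (inc h i) (inc h j) := lab_emb h i.2 j.2

lemma par_letter {k : ℕ} {x : List ℕ} {n : ℕ} {y φ : List ℕ} (h : Emb k x n y φ) (i : ℕ)
    (b : Bool) (hi : i < k) : letter' n y (φ.getD i 0, b) =
      Par.par (M := mat n y) (M' := mat k x) (inc h) (inc_mat h) (letter' k x (i, b)) := by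
  have hφ : φ.getD i 0 < n := h.1 i hi
  have e1 : Par.par (M := mat n y) (M' := mat k x) (inc h) (inc_mat h)
      (Artin.gen (mat k x) ⟨i, hi⟩) = Artin.gen (mat n y) ⟨φ.getD i 0, hφ⟩ :=
    Artin.lift_gen _ _ _
  unfold letter'
  rw [dif_pos hφ, dif_pos hi]
  cases b
  · rw [if_neg (by simp), if_neg (by simp), map_inv, e1]
  · rw [if_pos rfl, if_pos rfl, e1]

lemma par_word {k : ℕ} {x : List ℕ} {n : ℕ} {y φ : List ℕ} (h : Emb k x n y φ)
    (w : List (ℕ × Bool)) : ((ren k φ w).map (letter' n y)).prod =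
      Par.par (M := mat n y) (M' := mat k x) (inc h) (inc_mat h)
        ((w.map (letter' k x)).prod) := by
  induction w with
  | nil =>
    rw [List.map_nil, List.prod_nil, map_one]
    rfl
  | cons p w ih =>
    obtain ⟨i, b⟩ := p
    have h1 : ren k φ ((i, b) :: w) =
        (if i < k then [(φ.getD i 0, b)] else []) ++ ren k φ w := by
      simp [ren]
    rw [h1, List.map_append, List.prod_append, ih, List.map_cons, List.prod_cons, map_mul]
    congr 1
    by_cases hi : i < k
    · rw [if_pos hi, List.map_cons, List.map_nil, List.prod_cons, List.prod_nil, mul_one,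
        par_letter h i b hi]
    · rw [if_neg hi, List.map_nil, List.prod_nil]
      have : letter' k x (i, b) = 1 := by
        unfold letter'
        rw [dif_neg hi]
      rw [this, map_one]

/-- **Subwords**: a word in the generators of a standard parabolic subgroup is trivial in the big
group if and only if it is trivial in the small group. -/
theorem par_val {k : ℕ} {x : List ℕ} {n : ℕ} {y φ : List ℕ} (h : Emb k x n y φ)
    (w : List (ℕ × Bool)) : val n y (ren k φ w) = 1 ↔ val k x w = 1 := by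
  have e1 := toArt_eq_one n y (val n y (ren k φ w))
  have e2 := toArt_eq_one k x (val k x w)
  rw [toArt_val, par_word h w] at e1
  rw [toArt_val] at e2
  refine e1.symm.trans (Iff.trans ?_ e2)
  exact (injective_iff_map_eq_one'
    (Par.par (M := mat n y) (M' := mat k x) (inc h) (inc_mat h))).1
    (Par.par_injective (inc_mono h).injective (inc_mat h)) _

/-- The algorithm never gives a wrong answer. -/
def NeverErrs (A : Input →. Bool) : Prop :=
  ∀ n x w, ∀ b ∈ A (n, x, w), (b = true ↔ val n x w = 1)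

/-- The algorithm halts on all words of length at most `l`. -/
def HaltsUpTo (A : Input →. Bool) (l n : ℕ) (x : List ℕ) : Prop :=
  ∀ w : List (ℕ × Bool), w.length ≤ l → (A (n, x, w)).Dom

lemma ren_length (k : ℕ) (φ : List ℕ) (w : List (ℕ × Bool)) :
    (ren k φ w).length ≤ w.length := by
  induction w with
  | nil => simp [ren]
  | cons p w ih =>
    have h1 : ren k φ (p :: w) = (if p.1 < k then [(φ.getD p.1 0, p.2)] else []) ++ ren k φ w := by
      simp [ren]
    rw [h1, List.length_append, List.length_cons]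
    split_ifs <;> simp <;> omega

/-- Searching for a matrix that contains the given one. -/
theorem improve (A : Input →. Bool) (hA : Partrec A) (hE : NeverErrs A) :
    ∃ B : Input →. Bool, Partrec B ∧ NeverErrs B ∧
      ∀ k x w n y φ, Emb k x n y φ → (A (n, y, ren k φ w)).Dom → (B (k, x, w)).Dom := by
  classical
  obtain ⟨hc1, hc2⟩ := t_EMBC
  let f : Input × (ℕ × List ℕ × List ℕ) →. Bool := fun p =>
    cond (decide (Emb p.1.1 p.1.2.1 p.2.1 p.2.2.1 p.2.2.2))
      (A (p.2.1, p.2.2.1, ren p.1.1 p.2.2.2 p.1.2.2)) Part.none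
  have hf : Partrec f := by
    refine Partrec.cond ?_ (hA.comp ?_) Partrec.none
    · convert hc1
    · exact Computable.pair (Computable.fst.comp Computable.snd)
        (Computable.pair (Computable.fst.comp (Computable.snd.comp Computable.snd)) hc2)
  obtain ⟨B, hB, hd, hs⟩ := t_DOVE Input (ℕ × List ℕ × List ℕ) Bool inferInstance inferInstance
    inferInstance f hf
  refine ⟨B, hB, ?_, ?_⟩
  · intro k x w b hb
    obtain ⟨⟨n, y, φ⟩, hz⟩ := hs _ _ hb
    by_cases he : Emb k x n y φ
    · simp only [f, he, decide_true, cond_true] at hz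
      rw [hE n y _ b hz]
      exact par_val he w
    · simp only [f, he, decide_false, cond_false] at hz
      exact absurd hz (Part.notMem_none _)
  · intro k x w n y φ he hA'
    apply hd (k, x, w) (n, y, φ)
    simp only [f, he, decide_true, cond_true]
    exact hA'

/-- **Worst case and average case.** -/
theorem main (hC : CNTP) (p : PMF ℕ) :
    (∃ A : Input →. Bool, Partrec A ∧ NeverErrs A ∧
      ∀ n x, x.length = n.choose 2 → (∀ t ∈ x, p t ≠ 0) → ∀ w, (A (n, x, w)).Dom) ∨
    ∀ A : Input →. Bool, Partrec A → NeverErrs A → ∃ l : ℕ, ∃ c : ℝ, 0 < c ∧ ∃ n₀ : ℕ,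
      ∀ n ≥ n₀, prob p n {x | HaltsUpTo A l n x} ≤ Real.exp (-(c * (n : ℝ) ^ 2)) := by
  by_cases hall : ∀ A : Input →. Bool, Partrec A → NeverErrs A → ∃ l : ℕ, ∃ c : ℝ, 0 < c ∧
      ∃ n₀ : ℕ, ∀ n ≥ n₀, prob p n {x | HaltsUpTo A l n x} ≤ Real.exp (-(c * (n : ℝ) ^ 2))
  · exact Or.inr hall
  left
  push Not at hall
  obtain ⟨A, hA, hE, hno⟩ := hall
  obtain ⟨B, hB, hBE, hBs⟩ := improve A hA hE
  refine ⟨B, hB, hBE, ?_⟩
  intro k x hx hl w
  by_contra hns
  obtain ⟨c, hc, n₀, hcn⟩ := hC p k x (by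
    intro i hi
    rw [← hx] at hi
    rw [List.getD_eq_getElem _ _ hi]
    exact hl _ (List.getElem_mem hi))
  obtain ⟨n, hn, hlt⟩ := hno w.length c hc n₀
  apply absurd (hcn n hn {x | HaltsUpTo A w.length n x} ?_) (not_le.2 hlt)
  intro y hy _ φ hφ
  by_contra hcon
  push Not at hcon
  apply hns
  refine hBs k x w n y (List.ofFn fun i => (φ i : ℕ)) ⟨?_, ?_⟩ (hy _ (ren_length k _ w))
  · intro i hi
    rw [List.getD_eq_getElem _ _ (by simpa using hi)]
    simp
  · intro j hj i hij
    have hi : i < k := hij.trans hj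
    have e1 : (List.ofFn fun i => (φ i : ℕ)).getD i 0 = φ ⟨i, hi⟩ := by
      rw [List.getD_eq_getElem _ _ (by simpa using hi)]
      simp
    have e2 : (List.ofFn fun i => (φ i : ℕ)).getD j 0 = φ ⟨j, hj⟩ := by
      rw [List.getD_eq_getElem _ _ (by simpa using hj)]
      simp
    rw [e1, e2]
    exact ⟨hφ (show (⟨i, hi⟩ : Fin k) < ⟨j, hj⟩ from hij), hcon ⟨i, hi⟩ ⟨j, hj⟩ hij⟩

end Pool.Agent.N689.ZL
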