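import Pool.Agent.N689.ZL.Asm

/-!
# Average case and worst case: words in the generators only
-/

set_option autoImplicit false

namespace Pool.Agent.N689.ZL

/-- The algorithm halts on all words of length at most `l` in the generators and their inverses. -/
def HaltsOnWords (A : Input →. Bool) (l n : ℕ) (x : List ℕ) : Prop :=
  ∀ w : List (ℕ × Bool), w.length ≤ l → (∀ p ∈ w, p.1 < n) → (A (n, x, w)).Dom

lemma ren_lt {k : ℕ} {x : List ℕ} {n : ℕ} {y φ : List ℕ} (h : Emb k x n y φ)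
    (w : List (ℕ × Bool)) : ∀ p ∈ ren k φ w, p.1 < n := by
  intro p hp
  obtain ⟨q, -, hq⟩ := List.mem_flatMap.1 hp
  by_cases hk : q.1 < k
  · rw [if_pos hk, List.mem_singleton] at hq
    rw [hq]
    exact h.1 q.1 hk
  · rw [if_neg hk] at hq
    exact absurd hq List.not_mem_nil

/-- **Worst case and average case.** -/
theorem main3 (hC : CNTP) (p : PMF ℕ) :
    (∃ A : Input →. Bool, Partrec A ∧ NeverErrs A ∧
      ∀ n x, x.length = n.choose 2 → (∀ t ∈ x, p t ≠ 0) → ∀ w, (A (n, x, w)).Dom) ∨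
    ∀ A : Input →. Bool, Partrec A → NeverErrs A → ∃ l : ℕ, ∃ c : ℝ, 0 < c ∧ ∃ n₀ : ℕ,
      ∀ n ≥ n₀, prob p n {x | HaltsOnWords A l n x} ≤ Real.exp (-(c * (n : ℝ) ^ 2)) := by
  by_cases hall : ∀ A : Input →. Bool, Partrec A → NeverErrs A → ∃ l : ℕ, ∃ c : ℝ, 0 < c ∧
      ∃ n₀ : ℕ, ∀ n ≥ n₀, prob p n {x | HaltsOnWords A l n x} ≤ Real.exp (-(c * (n : ℝ) ^ 2))
  · exact Or.inr hall
  left
  push Not at hall
  obtain ⟨A, hA, hE, hno⟩ := hall
  obtain ⟨B, hB, hBE, hBs⟩ := improve A hA hE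
  refine ⟨B, hB, hBE, ?_⟩
  intro k x hx hl w
  by_contra hns
  obtain ⟨c, hc, n₀, hcn⟩ := hC p k x (by
    intro i hi
    rw [← hx] at hi
    rw [List.getD_eq_getElem _ _ hi]
    exact hl _ (List.getElem_mem hi))
  obtain ⟨n, hn, hlt⟩ := hno w.length c hc n₀
  apply absurd (hcn n hn {x | HaltsOnWords A w.length n x} ?_) (not_le.2 hlt)
  intro y hy _ φ hφ
  by_contra hcon
  push Not at hcon
  apply hns
  have he : Emb k x n y (List.ofFn fun i => (φ i : ℕ)) := by
    refine ⟨?_, ?_⟩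
    · intro i hi
      rw [List.getD_eq_getElem _ _ (by simpa using hi)]
      simp
    · intro j hj i hij
      have hi : i < k := hij.trans hj
      have e1 : (List.ofFn fun i => (φ i : ℕ)).getD i 0 = φ ⟨i, hi⟩ := by
        rw [List.getD_eq_getElem _ _ (by simpa using hi)]
        simp
      have e2 : (List.ofFn fun i => (φ i : ℕ)).getD j 0 = φ ⟨j, hj⟩ := by
        rw [List.getD_eq_getElem _ _ (by simpa using hj)]
        simp
      rw [e1, e2]
      exact ⟨hφ (show (⟨i, hi⟩ : Fin k) < ⟨j, hj⟩ from hij), hcon ⟨i, hi⟩ ⟨j, hj⟩ hij⟩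
  exact hBs k x w n y _ he (hy _ (ren_length k _ w) (ren_lt he w))

end Pool.Agent.N689.ZL
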