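import Pool.Agent.N689.ZL.Stm

/-!
# Project ZL (helper689), leaf CNT (helper399): counting with edge disjoint blocks
-/

set_option autoImplicit false

namespace Pool.Agent.N689.ZL

namespace CNTx

/-! ### the general counting lemma -/

theorem count {I B K L : Type} [Fintype I] [Fintype B] [Fintype K] [Fintype L]
    (e : B × K → I) (he : Function.Injective e) (t : B → K → L) (S : Set (I → L))
    (hS : ∀ y ∈ S, ∀ b, (fun k => y (e (b, k))) ≠ t b) :
    Nat.card S ≤ (Fintype.card L ^ Fintype.card K - 1) ^ Fintype.card B *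
      Fintype.card L ^ (Fintype.card I - Fintype.card B * Fintype.card K) := by
  classical
  let F : S → (((b : B) → {f : K → L // f ≠ t b}) × ({i : I // i ∉ Set.range e} → L)) :=
    fun y => (fun b => ⟨fun k => y.1 (e (b, k)), hS y.1 y.2 b⟩, fun i => y.1 i.1)
  have hF : Function.Injective F := by
    intro y z h
    apply Subtype.ext
    funext i
    by_cases hi : i ∈ Set.range e
    · obtain ⟨⟨b, k⟩, rfl⟩ := hi
      have h1 := congrArg (fun w => (w.1 b).1 k) h
      exact h1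
    · have h1 := congrArg (fun w => w.2 ⟨i, hi⟩) h
      exact h1
  have h1 := Nat.card_le_card_of_injective F hF
  refine h1.trans ?_
  rw [Nat.card_prod, Nat.card_eq_fintype_card, Nat.card_eq_fintype_card, Fintype.card_pi,
    Fintype.card_fun]
  have h2 : ∀ b : B, Fintype.card {f : K → L // f ≠ t b} =
      Fintype.card L ^ Fintype.card K - 1 := by
    intro b
    rw [Fintype.card_subtype_compl, Fintype.card_fun, Fintype.card_subtype_eq]
  have h3 : Fintype.card {i : I // i ∉ Set.range e} =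
      Fintype.card I - Fintype.card B * Fintype.card K := by
    rw [Fintype.card_subtype_compl, ← Fintype.card_prod]
    congr 1
    exact Set.card_range_of_injective he
  rw [h3]
  simp only [h2, Finset.prod_const, Finset.card_univ]
  exact le_rfl

/-! ### positions -/

theorem pos_lt {i j n : ℕ} (hij : i < j) (hj : j < n) : pos i j < n.choose 2 := by
  unfold pos
  rw [max_eq_right hij.le, min_eq_left hij.le]
  have h1 : (j + 1).choose 2 = j.choose 1 + j.choose 2 := Nat.choose_succ_succ j 1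
  have h2 : (j + 1).choose 2 ≤ n.choose 2 := Nat.choose_le_choose 2 hj
  rw [Nat.choose_one_right] at h1
  omega

theorem pos_inj {i j i' j' : ℕ} (hij : i < j) (hij' : i' < j') (h : pos i j = pos i' j') :
    i = i' ∧ j = j' := by
  have key : ∀ {i j i' j' : ℕ}, i < j → i' < j' → pos i j = pos i' j' → ¬ j < j' := by
    intro i j i' j' h1 h2 h3 h4
    unfold pos at h3
    rw [max_eq_right h1.le, min_eq_left h1.le, max_eq_right h2.le, min_eq_left h2.le] at h3
    have h5 : (j + 1).choose 2 = j.choose 1 + j.choose 2 := Nat.choose_succ_succ j 1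
    have h6 : (j + 1).choose 2 ≤ j'.choose 2 := Nat.choose_le_choose 2 h4
    rw [Nat.choose_one_right] at h5
    omega
  have h1 := key hij hij' h
  have h2 := key hij' hij h.symm
  have h3 : j = j' := by omega
  subst h3
  refine ⟨?_, rfl⟩
  unfold pos at h
  rw [max_eq_right hij.le, min_eq_left hij.le, max_eq_right hij'.le, min_eq_left hij'.le] at h
  omega

/-! ### blocks -/

/-- the block `φ_(a,b)` -/
def blk (k q a b i : ℕ) : ℕ := i * (k * q) + (a * i + b)

theorem blk_rem {k q a b i : ℕ} (ha : a < q) (hb : b < q) (hi : i < k) : a * i + b < k * q := by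
  obtain ⟨q', rfl⟩ : ∃ q', q = q' + 1 := ⟨q - 1, by omega⟩
  obtain ⟨k', rfl⟩ : ∃ k', k = k' + 1 := ⟨k - 1, by omega⟩
  have h1 : a * i ≤ q' * k' := Nat.mul_le_mul (by omega) (by omega)
  have h2 : (k' + 1) * (q' + 1) = q' * k' + k' + q' + 1 := by ring
  omega

theorem blk_mono {k q a b i j : ℕ} (ha : a < q) (hb : b < q) (hi : i < k) (hij : i < j) :
    blk k q a b i < blk k q a b j := by
  unfold blk
  have h1 := blk_rem ha hb hi
  have h2 : (i + 1) * (k * q) ≤ j * (k * q) := Nat.mul_le_mul_right _ hij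
  have h3 : (i + 1) * (k * q) = i * (k * q) + k * q := by ring
  omega

theorem blk_lt {k q a b i n : ℕ} (ha : a < q) (hb : b < q) (hi : i < k) (hn : k * (k * q) ≤ n) :
    blk k q a b i < n := by
  unfold blk
  have h1 := blk_rem ha hb hi
  have h2 : (i + 1) * (k * q) ≤ k * (k * q) := Nat.mul_le_mul_right _ hi
  have h3 : (i + 1) * (k * q) = i * (k * q) + k * q := by ring
  omega

theorem blk_eq {k q a b a' b' i i' : ℕ} (ha : a < q) (hb : b < q) (ha' : a' < q) (hb' : b' < q)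
    (hi : i < k) (hi' : i' < k) (h : blk k q a b i = blk k q a' b' i') :
    i = i' ∧ a * i + b = a' * i' + b' := by
  unfold blk at h
  have h1 := blk_rem ha hb hi
  have h2 := blk_rem ha' hb' hi'
  have h3 : 0 < k * q := by omega
  have h4 : (i * (k * q) + (a * i + b)) / (k * q) = (i' * (k * q) + (a' * i' + b')) / (k * q) := by
    rw [h]
  have h5 : (i * (k * q) + (a * i + b)) % (k * q) = (i' * (k * q) + (a' * i' + b')) % (k * q) := by
    rw [h]
  rw [mul_comm i, mul_comm i', Nat.mul_add_div h3, Nat.mul_add_div h3, Nat.div_eq_of_lt h1,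
    Nat.div_eq_of_lt h2] at h4
  rw [mul_comm i, mul_comm i', Nat.mul_add_mod, Nat.mul_add_mod, Nat.mod_eq_of_lt h1,
    Nat.mod_eq_of_lt h2] at h5
  exact ⟨by omega, h5⟩

theorem blk_inj {k q a b a' b' i j i' j' : ℕ} (ha : a < q) (hb : b < q) (ha' : a' < q)
    (hb' : b' < q) (hij : i < j) (hj : j < k) (hij' : i' < j') (hj' : j' < k)
    (h : pos (blk k q a b i) (blk k q a b j) = pos (blk k q a' b' i') (blk k q a' b' j')) :
    a = a' ∧ b = b' ∧ i = i' ∧ j = j' := by
  obtain ⟨h1, h2⟩ := pos_inj (blk_mono ha hb (hij.trans hj) hij)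
    (blk_mono ha' hb' (hij'.trans hj') hij') h
  obtain ⟨h3, h4⟩ := blk_eq ha hb ha' hb' (hij.trans hj) (hij'.trans hj') h1
  obtain ⟨h5, h6⟩ := blk_eq ha hb ha' hb' hj hj' h2
  subst h3
  subst h5
  obtain ⟨d, rfl⟩ : ∃ d, j = i + d := ⟨j - i, by omega⟩
  have hd : 0 < d := by omega
  have h7 : a * d = a' * d := by
    rw [mul_add, mul_add] at h6
    omega
  have h8 : a = a' := Nat.eq_of_mul_eq_mul_right hd h7
  subst h8
  exact ⟨rfl, by omega, rfl, rfl⟩

theorem getD_ofFn {N : ℕ} (f : Fin N → ℕ) {p : ℕ} (hp : p < N) :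
    (List.ofFn f).getD p 0 = f ⟨p, hp⟩ := by
  rw [List.getD_eq_getElem _ _ (by simpa using hp), List.getElem_ofFn]

/-- the natural number form of the bound -/
theorem nat_bound (L : Finset ℕ) (k : ℕ) (x : List ℕ) (hx : ∀ p < k.choose 2, x.getD p 0 ∈ L)
    (n q : ℕ) (hq : k * (k * q) ≤ n) (S : Set (Fin (n.choose 2) → L))
    (hS : ∀ y ∈ S, ∀ φ : Fin k → Fin n, StrictMono φ → ∃ i j : Fin k, i < j ∧
      (List.ofFn fun p => (y p : ℕ)).getD (pos (φ i) (φ j)) 0 ≠ x.getD (pos i j) 0) :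
    q * q * Fintype.card {p : Fin k × Fin k // p.1 < p.2} ≤ n.choose 2 ∧
    Nat.card S ≤ (L.card ^ Fintype.card {p : Fin k × Fin k // p.1 < p.2} - 1) ^ (q * q) *
      L.card ^ (n.choose 2 - q * q * Fintype.card {p : Fin k × Fin k // p.1 < p.2}) := by
  classical
  let e : (Fin q × Fin q) × {p : Fin k × Fin k // p.1 < p.2} → Fin (n.choose 2) := fun w =>
    ⟨pos (blk k q w.1.1 w.1.2 w.2.1.1) (blk k q w.1.1 w.1.2 w.2.1.2),
      pos_lt (blk_mono w.1.1.2 w.1.2.2 w.2.1.1.2 w.2.2)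
        (blk_lt w.1.1.2 w.1.2.2 w.2.1.2.2 hq)⟩
  have he : Function.Injective e := by
    rintro ⟨⟨a, b⟩, ⟨⟨i, j⟩, hij⟩⟩ ⟨⟨a', b'⟩, ⟨⟨i', j'⟩, hij'⟩⟩ h
    have h1 := congrArg Fin.val h
    obtain ⟨h2, h3, h4, h5⟩ := blk_inj a.2 b.2 a'.2 b'.2 hij j.2 hij' j'.2 h1
    have h2' := Fin.ext h2
    have h3' := Fin.ext h3
    have h4' := Fin.ext h4
    have h5' := Fin.ext h5
    subst h2' h3' h4' h5'
    rfl
  let t : (Fin q × Fin q) → {p : Fin k × Fin k // p.1 < p.2} → L := fun _ p =>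
    ⟨x.getD (pos p.1.1 p.1.2) 0, hx _ (pos_lt p.2 p.1.2.2)⟩
  have h1 := count e he t S ?_
  · have h2 := Fintype.card_le_of_injective e he
    rw [Fintype.card_prod, Fintype.card_prod, Fintype.card_fin, Fintype.card_fin] at h2
    refine ⟨h2, ?_⟩
    rw [Fintype.card_prod, Fintype.card_fin, Fintype.card_fin, Fintype.card_coe] at h1
    exact h1
  · rintro y hy ⟨a, b⟩ h
    obtain ⟨i, j, hij, hne⟩ := hS y hy
      (fun i => ⟨blk k q a b i, blk_lt a.2 b.2 i.2 hq⟩)
      (fun i j hij => blk_mono a.2 b.2 i.2 hij)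
    apply hne
    have h2 := congrArg Subtype.val (congrFun h ⟨(i, j), hij⟩)
    rw [getD_ofFn (fun p => ((y p : L) : ℕ)) (pos_lt (blk_mono a.2 b.2 i.2 hij)
      (blk_lt a.2 b.2 j.2 hq))]
    exact h2

/-! ### the real form -/

theorem real_bound {l m Q N : ℕ} (hl : 1 ≤ l) (hN : Q * m ≤ N) :
    (((l ^ m - 1) ^ Q * l ^ (N - Q * m) : ℕ) : ℝ) ≤
      Real.exp (-(((l : ℝ) ^ m)⁻¹ * Q)) * (l : ℝ) ^ N := by
  have hl0 : (0 : ℝ) < l := by exact_mod_cast hl
  have h1 : 1 ≤ l ^ m := Nat.one_le_pow _ _ hl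
  have h2 : (0 : ℝ) < (l : ℝ) ^ m := by positivity
  push_cast [Nat.cast_sub h1]
  have h3 : (l : ℝ) ^ N = ((l : ℝ) ^ m) ^ Q * (l : ℝ) ^ (N - Q * m) := by
    rw [← pow_mul, ← pow_add]
    congr 1
    rw [mul_comm m Q]
    omega
  have h4 : (l : ℝ) ^ m - 1 = (1 - ((l : ℝ) ^ m)⁻¹) * (l : ℝ) ^ m := by
    field_simp
  have h5 : 1 - ((l : ℝ) ^ m)⁻¹ ≤ Real.exp (-((l : ℝ) ^ m)⁻¹) := by
    have := Real.add_one_le_exp (-((l : ℝ) ^ m)⁻¹)
    linarith
  have h6 : 0 ≤ 1 - ((l : ℝ) ^ m)⁻¹ := by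
    rw [sub_nonneg]
    apply inv_le_one_of_one_le₀
    exact_mod_cast h1
  have h7 : (1 - ((l : ℝ) ^ m)⁻¹) ^ Q ≤ Real.exp (-(((l : ℝ) ^ m)⁻¹ * Q)) := by
    calc (1 - ((l : ℝ) ^ m)⁻¹) ^ Q ≤ (Real.exp (-((l : ℝ) ^ m)⁻¹)) ^ Q :=
          pow_le_pow_left₀ h6 h5 Q
      _ = Real.exp (-(((l : ℝ) ^ m)⁻¹ * Q)) := by
          rw [← Real.exp_nat_mul]
          congr 1
          ring
  rw [h4, mul_pow, h3, mul_assoc]
  gcongr

theorem main : CNT := by
  classical
  intro L k x hx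
  rcases Nat.lt_or_ge k 2 with hk | hk
  · refine ⟨1, one_pos, k, fun n hn S hS => ?_⟩
    have h1 : S = ∅ := by
      rw [Set.eq_empty_iff_forall_notMem]
      intro y hy
      obtain ⟨i, j, hij, -⟩ := hS y hy (Fin.castLE hn) (Fin.strictMono_castLE hn)
      have h2 : (i : ℕ) < j := hij
      have h3 := j.2
      omega
    subst h1
    have h2 : Nat.card (∅ : Set (Fin (n.choose 2) → L)) = 0 := by simp
    rw [h2, Nat.cast_zero]
    positivity
  · have hL : 1 ≤ L.card := by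
      rw [Nat.one_le_iff_ne_zero, Finset.card_ne_zero]
      refine ⟨x.getD 0 0, hx 0 ?_⟩
      exact Nat.choose_pos hk
    have hl0 : (0 : ℝ) < L.card := by exact_mod_cast hL
    set m := Fintype.card {p : Fin k × Fin k // p.1 < p.2} with hm
    have hk0 : (0 : ℝ) < k := by
      have : 0 < k := by omega
      exact_mod_cast this
    refine ⟨((L.card : ℝ) ^ m)⁻¹ / (4 * (k : ℝ) ^ 4), by positivity, k * k, fun n hn S hS => ?_⟩
    have hkk : 0 < k * k := by positivity
    set q := n / (k * k) with hq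
    have hq1 : k * (k * q) ≤ n := by
      rw [← mul_assoc]
      exact Nat.mul_div_le n (k * k)
    have hq2 : 1 ≤ q := by
      rw [hq]
      exact (Nat.one_le_div_iff hkk).2 hn
    have hq3 : n ≤ 2 * (k * k * q) := by
      have h1 : n < k * k * (q + 1) := by
        rw [hq]
        have := Nat.lt_mul_div_succ n hkk
        exact this
      have h2 : k * k * (q + 1) = k * k * q + k * k := by ring
      have h3 : k * k ≤ k * k * q := Nat.le_mul_of_pos_right _ hq2
      omega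
    obtain ⟨h1, h2⟩ := nat_bound L k x hx n q hq1 S hS
    rw [← hm] at h1 h2
    have h3 : (Nat.card S : ℝ) ≤ (((L.card ^ m - 1) ^ (q * q) *
        L.card ^ (n.choose 2 - q * q * m) : ℕ) : ℝ) := by exact_mod_cast h2
    refine h3.trans ((real_bound hL h1).trans
      (mul_le_mul_of_nonneg_right (Real.exp_le_exp.2 (neg_le_neg ?_)) (by positivity)))
    have h4 : (n : ℝ) ≤ 2 * ((k : ℝ) * k * q) := by exact_mod_cast hq3
    have h5 : (n : ℝ) ^ 2 ≤ 4 * (k : ℝ) ^ 4 * ((q : ℝ) * q) := by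
      have h6 : (0 : ℝ) ≤ n := Nat.cast_nonneg n
      calc (n : ℝ) ^ 2 ≤ (2 * ((k : ℝ) * k * q)) ^ 2 := pow_le_pow_left₀ h6 h4 2
        _ = 4 * (k : ℝ) ^ 4 * ((q : ℝ) * q) := by ring
    have h7 : ((L.card : ℝ) ^ m)⁻¹ / (4 * (k : ℝ) ^ 4) * (n : ℝ) ^ 2 ≤
        ((L.card : ℝ) ^ m)⁻¹ * ((q : ℝ) * q) := by
      rw [div_mul_eq_mul_div, div_le_iff₀ (by positivity), mul_assoc]
      have h8 : (q : ℝ) * q * (4 * (k : ℝ) ^ 4) = 4 * (k : ℝ) ^ 4 * ((q : ℝ) * q) := by ring
      rw [h8]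
      gcongr
    push_cast
    exact h7

end CNTx

/-- **CNT.** -/
theorem t_CNT : CNT := CNTx.main

end Pool.Agent.N689.ZL
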