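import Pool.Agent.N689.ZL.Stm2
import Pool.Agent.N689.ZL.T_CNT

/-!
# Project ZL (helper689), leaf CNTP (helper386): random matrices with independent labels
-/

set_option autoImplicit false

namespace Pool.Agent.N689.ZL

namespace CNTPx

open MeasureTheory ProbabilityTheory CNTx

/-- one block -/
theorem one {I K : Type} [Fintype I] [Fintype K] (mu : Measure ℕ) [IsProbabilityMeasure mu]
    (e : K → I) (he : Function.Injective e) (t : K → ℕ) :
    (Measure.pi fun _ : I => mu) {y | (fun k => y (e k)) ≠ t} = 1 - ∏ k, mu {t k} := by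
  classical
  have hind : iIndepFun (fun (i : I) (y : I → ℕ) => y i) (Measure.pi fun _ : I => mu) :=
    iIndepFun_pi (X := fun _ : I => (id : ℕ → ℕ)) fun i => aemeasurable_id
  have h1 := hind.precomp he
  have h2 := h1.meas_iInter (s := fun k => (fun y : I → ℕ => y (e k)) ⁻¹' {t k})
    (fun k => ⟨{t k}, measurableSet_singleton _, rfl⟩)
  have h3 : ∀ k, (Measure.pi fun _ : I => mu) ((fun y : I → ℕ => y (e k)) ⁻¹' {t k}) = mu {t k} :=
    fun k => (measurePreserving_eval (fun _ : I => mu) (e k)).measure_preimage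
      (measurableSet_singleton _).nullMeasurableSet
  simp only [h3] at h2
  have h4 : {y : I → ℕ | (fun k => y (e k)) ≠ t} = (⋂ k, (fun y : I → ℕ => y (e k)) ⁻¹' {t k})ᶜ := by
    ext y
    simp only [Set.mem_setOf_eq, Set.mem_compl_iff, Set.mem_iInter, Set.mem_preimage,
      Set.mem_singleton_iff, ne_eq, funext_iff]
  rw [h4, prob_compl_eq_one_sub, h2]
  exact MeasurableSet.iInter fun k => measurable_pi_apply _ (measurableSet_singleton _)

/-- all blocks -/
theorem ind {I B K : Type} [Fintype I] [Fintype K] (mu : Measure ℕ) [IsProbabilityMeasure mu]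
    (e : B × K → I) (he : Function.Injective e) (t : B → K → ℕ) (s : Finset B) :
    (Measure.pi fun _ : I => mu) {y | ∀ b ∈ s, (fun k => y (e (b, k))) ≠ t b} =
      ∏ b ∈ s, (1 - ∏ k, mu {t b k}) := by
  classical
  induction s using Finset.induction_on with
  | empty => simp
  | insert b s hb ih =>
    rw [Finset.prod_insert hb, ← ih, ← one mu (fun k => e (b, k))
      (fun k k' h => by simpa using he h) (t b)]
    have hind : iIndepFun (fun (i : I) (y : I → ℕ) => y i) (Measure.pi fun _ : I => mu) :=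
      iIndepFun_pi (X := fun _ : I => (id : ℕ → ℕ)) fun i => aemeasurable_id
    let T : Finset I := Finset.univ.image fun k => e (b, k)
    let U : Finset I := (s ×ˢ (Finset.univ : Finset K)).image e
    have hTU : Disjoint T U := by
      rw [Finset.disjoint_left]
      intro i hi hi'
      obtain ⟨k, -, hk⟩ := Finset.mem_image.1 hi
      obtain ⟨⟨b', k'⟩, hk', hk''⟩ := Finset.mem_image.1 hi'
      rw [← hk] at hk''
      have := he hk''
      simp only [Prod.mk.injEq] at this
      apply hb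
      rw [← this.1]
      exact (Finset.mem_product.1 hk').1
    have h1 := hind.indepFun_finset T U hTU (fun i => measurable_pi_apply i)
    have hT : ∀ k, e (b, k) ∈ T := fun k => Finset.mem_image_of_mem _ (Finset.mem_univ k)
    have hU : ∀ (b' : B) (_ : b' ∈ s) (k : K), e (b', k) ∈ U := fun b' hb' k =>
      Finset.mem_image_of_mem _ (Finset.mem_product.2 ⟨hb', Finset.mem_univ k⟩)
    have h2 := h1.measure_inter_preimage_eq_mul
      {z : T → ℕ | (fun k => z ⟨e (b, k), hT k⟩) ≠ t b}
      {z : U → ℕ | ∀ (b' : B) (hb' : b' ∈ s), (fun k => z ⟨e (b', k), hU b' hb' k⟩) ≠ t b'}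
      (Set.to_countable _).measurableSet (Set.to_countable _).measurableSet
    refine Eq.trans (congrArg _ ?_) h2
    ext y
    simp only [Set.mem_setOf_eq, Set.mem_inter_iff, Set.mem_preimage, Finset.mem_insert]
    constructor
    · intro h
      exact ⟨h b (Or.inl rfl), fun b' hb' => h b' (Or.inr hb')⟩
    · rintro ⟨h, h'⟩ b' (rfl | hb')
      · exact h
      · exact h' b' hb'

/-- the bound with blocks -/
theorem bound (p : PMF ℕ) (k : ℕ) (x : List ℕ) (n q : ℕ) (hq : k * (k * q) ≤ n)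
    (S : Set (List ℕ))
    (hS : ∀ y ∈ S, y.length = n.choose 2 → ∀ φ : Fin k → Fin n, StrictMono φ →
      ∃ i j : Fin k, i < j ∧ y.getD (pos (φ i) (φ j)) 0 ≠ x.getD (pos i j) 0) :
    (Measure.pi fun _ : Fin (n.choose 2) => p.toMeasure) {y | List.ofFn y ∈ S} ≤
      (1 - ∏ w : {w : Fin k × Fin k // w.1 < w.2}, p (x.getD (pos w.1.1 w.1.2) 0)) ^ (q * q) := by
  classical
  let e : (Fin q × Fin q) × {p : Fin k × Fin k // p.1 < p.2} → Fin (n.choose 2) := fun w =>
    ⟨pos (blk k q w.1.1 w.1.2 w.2.1.1) (blk k q w.1.1 w.1.2 w.2.1.2),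
      pos_lt (blk_mono w.1.1.2 w.1.2.2 w.2.1.1.2 w.2.2)
        (blk_lt w.1.1.2 w.1.2.2 w.2.1.2.2 hq)⟩
  have he : Function.Injective e := by
    rintro ⟨⟨a, b⟩, ⟨⟨i, j⟩, hij⟩⟩ ⟨⟨a', b'⟩, ⟨⟨i', j'⟩, hij'⟩⟩ h
    have h1 := congrArg Fin.val h
    obtain ⟨h2, h3, h4, h5⟩ := blk_inj a.2 b.2 a'.2 b'.2 hij j.2 hij' j'.2 h1
    have h2' := Fin.ext h2
    have h3' := Fin.ext h3
    have h4' := Fin.ext h4
    have h5' := Fin.ext h5
    subst h2' h3' h4' h5'
    rfl
  let t : (Fin q × Fin q) → {p : Fin k × Fin k // p.1 < p.2} → ℕ := fun _ w =>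
    x.getD (pos w.1.1 w.1.2) 0
  have h1 := ind p.toMeasure e he t Finset.univ
  have h2 : ∀ a : ℕ, p.toMeasure {a} = p a := fun a =>
    p.toMeasure_apply_singleton a (measurableSet_singleton a)
  simp only [h2, Finset.prod_const, Finset.card_univ, Fintype.card_prod, Fintype.card_fin, t] at h1
  refine (measure_mono ?_).trans h1.le
  rintro y hy ⟨a, b⟩ - h
  obtain ⟨i, j, hij, hne⟩ := hS _ hy (by simp)
    (fun i => ⟨blk k q a b i, blk_lt a.2 b.2 i.2 hq⟩)
    (fun i j hij => blk_mono a.2 b.2 i.2 hij)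
  apply hne
  have h2 := congrFun h ⟨(i, j), hij⟩
  rw [getD_ofFn y (pos_lt (blk_mono a.2 b.2 i.2 hij) (blk_lt a.2 b.2 j.2 hq))]
  exact h2

theorem main : CNTP := by
  classical
  intro p k x hx
  rcases Nat.lt_or_ge k 2 with hk | hk
  · refine ⟨1, one_pos, k, fun n hn S hS => ?_⟩
    have h1 : {y : Fin (n.choose 2) → ℕ | List.ofFn y ∈ S} = ∅ := by
      rw [Set.eq_empty_iff_forall_notMem]
      intro y hy
      obtain ⟨i, j, hij, -⟩ := hS _ hy (by simp) (Fin.castLE hn) (Fin.strictMono_castLE hn)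
      have h2 : (i : ℕ) < j := hij
      have h3 := j.2
      omega
    unfold prob
    rw [h1, measure_empty, ENNReal.toReal_zero]
    positivity
  · obtain ⟨r, hr⟩ : ∃ r, r = ∏ w : {w : Fin k × Fin k // w.1 < w.2},
      p (x.getD (pos w.1.1 w.1.2) 0) := ⟨_, rfl⟩
    have hr0 : r ≠ 0 := by
      rw [hr, Finset.prod_ne_zero_iff]
      intro w _
      exact hx _ (pos_lt w.2 w.1.2.2)
    have hr1 : r ≤ 1 := by
      rw [hr]
      exact Finset.prod_le_one' fun w _ => p.coe_le_one _
    have hr2 : r ≠ ⊤ := ne_top_of_le_ne_top ENNReal.one_ne_top hr1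
    have hr3 : 0 < r.toReal := ENNReal.toReal_pos hr0 hr2
    have hr4 : r.toReal ≤ 1 := by
      have := ENNReal.toReal_mono ENNReal.one_ne_top hr1
      simpa using this
    have hk0 : (0 : ℝ) < k := by
      have : 0 < k := by omega
      exact_mod_cast this
    refine ⟨r.toReal / (4 * (k : ℝ) ^ 4), by positivity, k * k, fun n hn S hS => ?_⟩
    have hkk : 0 < k * k := by positivity
    set q := n / (k * k) with hq
    have hq1 : k * (k * q) ≤ n := by
      rw [← mul_assoc]
      exact Nat.mul_div_le n (k * k)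
    have hq2 : 1 ≤ q := by
      rw [hq]
      exact (Nat.one_le_div_iff hkk).2 hn
    have hq3 : n ≤ 2 * (k * k * q) := by
      have h1 : n < k * k * (q + 1) := by
        rw [hq]
        have := Nat.lt_mul_div_succ n hkk
        exact this
      have h2 : k * k * (q + 1) = k * k * q + k * k := by ring
      have h3 : k * k ≤ k * k * q := Nat.le_mul_of_pos_right _ hq2
      omega
    have h1 := bound p k x n q hq1 S hS
    rw [← hr] at h1
    have h2 : prob p n S ≤ (1 - r.toReal) ^ (q * q) := by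
      unfold prob
      have h3 := ENNReal.toReal_mono (by
        exact ENNReal.pow_ne_top (ne_top_of_le_ne_top ENNReal.one_ne_top tsub_le_self)) h1
      rw [ENNReal.toReal_pow, ENNReal.toReal_sub_of_le hr1 ENNReal.one_ne_top,
        ENNReal.toReal_one] at h3
      exact h3
    refine h2.trans ?_
    have h3 : (1 - r.toReal) ^ (q * q) ≤ Real.exp (-(r.toReal * ((q : ℝ) * q))) := by
      calc (1 - r.toReal) ^ (q * q) ≤ (Real.exp (-r.toReal)) ^ (q * q) := by
            refine pow_le_pow_left₀ (by linarith) ?_ _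
            have := Real.add_one_le_exp (-r.toReal)
            linarith
        _ = Real.exp (-(r.toReal * ((q : ℝ) * q))) := by
            rw [← Real.exp_nat_mul]
            congr 1
            push_cast
            ring
    refine h3.trans (Real.exp_le_exp.2 (neg_le_neg ?_))
    have h4 : (n : ℝ) ≤ 2 * ((k : ℝ) * k * q) := by exact_mod_cast hq3
    have h5 : (n : ℝ) ^ 2 ≤ 4 * (k : ℝ) ^ 4 * ((q : ℝ) * q) := by
      have h6 : (0 : ℝ) ≤ n := Nat.cast_nonneg n
      calc (n : ℝ) ^ 2 ≤ (2 * ((k : ℝ) * k * q)) ^ 2 := pow_le_pow_left₀ h6 h4 2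
        _ = 4 * (k : ℝ) ^ 4 * ((q : ℝ) * q) := by ring
    rw [div_mul_eq_mul_div, div_le_iff₀ (by positivity), mul_assoc]
    have h8 : (q : ℝ) * q * (4 * (k : ℝ) ^ 4) = 4 * (k : ℝ) ^ 4 * ((q : ℝ) * q) := by ring
    rw [h8]
    gcongr

end CNTPx

/-- **CNTP.** -/
theorem t_CNTP : CNTP := CNTPx.main

end Pool.Agent.N689.ZL
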