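import Pool.Agent.N689.ZL.Asm
import Pool.Agent.N689.ZL.T_CNTP

/-!
# A zero-one law for the properties of Artin groups which pass to subgroups (helper689)
-/

set_option autoImplicit false

namespace Pool.Agent.N689.ZL

lemma toArt_ofArt (n : ℕ) (x : List ℕ) (g : Pool.Agent.Helper741.Artin (mat n x)) :
    toArt n x (ofArt n x g) = g := by
  have h : (toArt n x).comp (ofArt n x) = MonoidHom.id _ := by
    apply PresentedGroup.ext
    intro i
    have h1 : ofArt n x (PresentedGroup.of i) = PresentedGroup.of i := by
      simp [ofArt, Pool.Agent.Helper741.Artin.lift]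
    have h2 : toArt n x (PresentedGroup.of i) = PresentedGroup.of i := by
      simp [toArt, Pool.Agent.Helper741.Artin.gen]
    simp [h1, h2]
  exact DFunLike.congr_fun h g

/-- **The theorem of van der Lek** for the groups given by lists of labels: special subgroups. -/
theorem exists_injective {k : ℕ} {x : List ℕ} {n : ℕ} {y φ : List ℕ} (h : Emb k x n y φ) :
    ∃ f : ArtinGroup k x →* ArtinGroup n y, Function.Injective f := by
  refine ⟨(ofArt n y).comp ((Par.par (M := mat n y) (M' := mat k x) (inc h)
    (inc_mat h)).comp (toArt k x)), ?_⟩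
  have h1 : Function.Injective (toArt k x) := Function.LeftInverse.injective (ofArt_toArt k x)
  have h2 : Function.Injective (ofArt n y) := Function.LeftInverse.injective (toArt_ofArt n y)
  exact h2.comp ((Par.par_injective (inc_mono h).injective (inc_mat h)).comp h1)

/-- For every property of groups which passes to subgroups and every distribution `p` of the labels:
all Artin groups whose labels have positive probability have the property, or the random Artin group
has it with probability at most `exp (- c n ^ 2)`. -/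
theorem zeroOne (Q : ∀ (G : Type) [Group G], Prop)
    (hQ : ∀ (G H : Type) [Group G] [Group H] (f : G →* H), Function.Injective f → Q H → Q G)
    (p : PMF ℕ) :
    (∀ n x, x.length = n.choose 2 → (∀ t ∈ x, p t ≠ 0) → Q (ArtinGroup n x)) ∨
    ∃ c : ℝ, 0 < c ∧ ∃ n₀ : ℕ, ∀ n ≥ n₀,
      prob p n {x | Q (ArtinGroup n x)} ≤ Real.exp (-(c * (n : ℝ) ^ 2)) := by
  by_cases hall : ∀ n x, x.length = n.choose 2 → (∀ t ∈ x, p t ≠ 0) → Q (ArtinGroup n x)
  · exact Or.inl hall
  right
  push Not at hall
  obtain ⟨k, x, hx, hl, hns⟩ := hall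
  obtain ⟨c, hc, n₀, hcn⟩ := t_CNTP p k x (by
    intro i hi
    rw [← hx] at hi
    rw [List.getD_eq_getElem _ _ hi]
    exact hl _ (List.getElem_mem hi))
  refine ⟨c, hc, n₀, fun n hn => hcn n hn _ ?_⟩
  intro y hy _ φ hφ
  by_contra hcon
  push Not at hcon
  apply hns
  have he : Emb k x n y (List.ofFn fun i => (φ i : ℕ)) := by
    refine ⟨?_, ?_⟩
    · intro i hi
      rw [List.getD_eq_getElem _ _ (by simpa using hi)]
      simp
    · intro j hj i hij
      have hi : i < k := hij.trans hj
      have e1 : (List.ofFn fun i => (φ i : ℕ)).getD i 0 = φ ⟨i, hi⟩ := by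
        rw [List.getD_eq_getElem _ _ (by simpa using hi)]
        simp
      have e2 : (List.ofFn fun i => (φ i : ℕ)).getD j 0 = φ ⟨j, hj⟩ := by
        rw [List.getD_eq_getElem _ _ (by simpa using hj)]
        simp
      rw [e1, e2]
      exact ⟨hφ (show (⟨i, hi⟩ : Fin k) < ⟨j, hj⟩ from hij), hcon ⟨i, hi⟩ ⟨j, hj⟩ hij⟩
  obtain ⟨f, hf⟩ := exists_injective he
  exact hQ _ _ f hf hy

end Pool.Agent.N689.ZL
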