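import Mathlib

/-!
# Majority votes (project ZL, helper689)
-/

set_option autoImplicit false

namespace Pool.Agent.N689.ZL

open Classical in
/-- **Leaf MAJ**: the majority vote over a computable finite list is partial recursive. -/
def MAJ : Prop := ∀ (α β : Type) (_ : Primcodable α) (_ : Primcodable β) (ys : α → List β)
  (f : α × β →. Bool), Computable ys → Partrec f → ∃ g : α →. Bool, Partrec g ∧
    ∀ a b, (ys a).length < 2 * ((ys a).countP fun z => decide (b ∈ f (a, z))) → b ∈ g a

/-- **Leaf LISTS**: the list of all lists of length `r` with entries in `L` is computable. -/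
def LISTS : Prop := ∀ L : Finset ℕ, ∃ f : ℕ → List (List ℕ), Computable f ∧
  ∀ r, (f r).Nodup ∧ (f r).length = L.card ^ r ∧ ∀ d, d ∈ f r ↔ d.length = r ∧ ∀ t ∈ d, t ∈ L

end Pool.Agent.N689.ZL
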