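import Pool.Agent.N689.ZL.Asm
import Pool.Agent.N689.ZL.Stm3

/-!
# Algorithms that may err: from the average case to the worst case
-/

set_option autoImplicit false

namespace Pool.Agent.N689.ZL

/-- The algorithm is right on the word `w`: it halts and says correctly whether `w = 1`. -/
def Right (A : Input →. Bool) (n : ℕ) (x : List ℕ) (w : List (ℕ × Bool)) : Prop :=
  ∃ b ∈ A (n, x, w), (b = true ↔ val n x w = 1)

/-- The number of the matrices of rank `n` with labels in `L` for which the algorithm is not right
on the word `w`. -/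
noncomputable def wrong (A : Input →. Bool) (L : Finset ℕ) (w : List (ℕ × Bool)) (n : ℕ) : ℕ :=
  Nat.card {y : Fin (n.choose 2) → L // ¬ Right A n (List.ofFn fun i => (y i : ℕ)) w}

lemma primrec_choose : Primrec fun k : ℕ => k.choose 2 := by
  have h : (fun k : ℕ => k.choose 2) = fun k => k * (k - 1) / 2 := by
    funext k
    exact Nat.choose_two_right k
  rw [h]
  exact Primrec.nat_div.comp (Primrec.nat_mul.comp Primrec.id
    (Primrec.nat_sub.comp Primrec.id (Primrec.const 1))) (Primrec.const 2)

/-- The word without the letters that are ignored. -/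
def cut (k : ℕ) (w : List (ℕ × Bool)) : List (ℕ × Bool) := ren k (List.range k) w

lemma ren_comp : Computable fun a : Input => ren a.1 (List.range a.1) a.2.2 := by
  have h1 : Computable fun a : Input =>
      ((a, (0, ([] : List ℕ), List.range a.1)) : Input × (ℕ × List ℕ × List ℕ)) :=
    Computable.pair Computable.id (Computable.pair (Computable.const 0)
      (Computable.pair (Computable.const [])
        ((Primrec.list_range.comp Primrec.fst).to_comp)))
  have h2 := Computable.comp t_EMBC.2 h1
  simpa only using h2

lemma cut_comp : Computable fun a : Input => cut a.1 a.2.2 := by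
  unfold cut
  exact ren_comp

lemma pos_lt {i j k : ℕ} (hij : i < j) (hj : j < k) : pos i j < k.choose 2 := by
  have h1 : pos i j = j.choose 2 + i := by
    unfold pos
    rw [max_eq_right hij.le, min_eq_left hij.le]
  have h2 : (j + 1).choose 2 = j.choose 2 + j := by
    rw [Nat.choose_succ_succ', Nat.choose_one_right]
    ring
  have h3 : (j + 1).choose 2 ≤ k.choose 2 := Nat.choose_le_choose 2 hj
  omega

lemma emb_range {k n : ℕ} {x : List ℕ} (hx : x.length = k.choose 2) (hkn : k ≤ n) (d : List ℕ) :
    Emb k x n (x ++ d) (List.range k) := by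
  have hr : ∀ i, i < k → (List.range k).getD i 0 = i := by
    intro i hi
    rw [List.getD_eq_getElem _ _ (by simpa using hi)]
    simp
  refine ⟨fun i hi => ?_, fun j hj i hij => ?_⟩
  · rw [hr i hi]
    omega
  · rw [hr i (hij.trans hj), hr j hj]
    refine ⟨hij, ?_⟩
    apply List.getD_append
    rw [hx]
    exact pos_lt hij hj

open Classical in
/-- The number of the continuations of `x` for which the algorithm is not right. -/
lemma wrong_le (A : Input →. Bool) (L : Finset ℕ) (w : List (ℕ × Bool)) {k n : ℕ} {x : List ℕ}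
    (hx : x.length = k.choose 2) (hl : ∀ t ∈ x, t ∈ L) (hkn : k ≤ n) (ds : List (List ℕ))
    (hnd : ds.Nodup)
    (hds : ∀ d ∈ ds, d.length = n.choose 2 - k.choose 2 ∧ ∀ t ∈ d, t ∈ L) :
    (ds.countP fun d => decide (¬ Right A n (x ++ d) w)) ≤ wrong A L w n := by
  have hch : k.choose 2 ≤ n.choose 2 := Nat.choose_le_choose 2 hkn
  rw [List.countP_eq_length_filter]
  set es := ds.filter fun d => decide (¬ Right A n (x ++ d) w) with hes
  have hesn : es.Nodup := hnd.filter _
  have hmem : ∀ d ∈ es, d.length = n.choose 2 - k.choose 2 ∧ (∀ t ∈ d, t ∈ L) ∧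
      ¬ Right A n (x ++ d) w := by
    intro d hd
    rw [hes, List.mem_filter] at hd
    obtain ⟨h1, h2⟩ := hds d hd.1
    exact ⟨h1, h2, by simpa using hd.2⟩
  have hlen : ∀ d ∈ es, (x ++ d).length = n.choose 2 := by
    intro d hd
    rw [List.length_append, hx, (hmem d hd).1]
    omega
  have hL : ∀ d ∈ es, ∀ t ∈ x ++ d, t ∈ L := by
    intro d hd t ht
    rcases List.mem_append.1 ht with ht | ht
    · exact hl t ht
    · exact (hmem d hd).2.1 t ht
  let F : {d // d ∈ es} → {y : Fin (n.choose 2) → L //
      ¬ Right A n (List.ofFn fun i => (y i : ℕ)) w} := fun d =>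
    ⟨fun i => ⟨(x ++ d.1)[(i : ℕ)]'(by rw [hlen d.1 d.2]; exact i.2),
      hL d.1 d.2 _ (List.getElem_mem _)⟩, by
      have : (List.ofFn fun i : Fin (n.choose 2) =>
          (x ++ d.1)[(i : ℕ)]'(by rw [hlen d.1 d.2]; exact i.2)) = x ++ d.1 := by
        apply List.ext_getElem
        · rw [List.length_ofFn, hlen d.1 d.2]
        · intro i h1 h2
          rw [List.getElem_ofFn]
      change ¬ Right A n (List.ofFn fun i : Fin (n.choose 2) =>
          (x ++ d.1)[(i : ℕ)]'(by rw [hlen d.1 d.2]; exact i.2)) w
      rw [this]
      exact (hmem d.1 d.2).2.2⟩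
  have hF : Function.Injective F := by
    intro d e hde
    have h1 := congrArg Subtype.val hde
    apply Subtype.ext
    have h2 : x ++ d.1 = x ++ e.1 := by
      apply List.ext_getElem
      · rw [hlen d.1 d.2, hlen e.1 e.2]
      · intro i h3 h4
        have h5 := congrArg Subtype.val (congrFun h1 ⟨i, by rw [← hlen d.1 d.2]; exact h3⟩)
        exact h5
    exact List.append_cancel_left h2
  have h1 := Nat.card_le_card_of_injective F hF
  have h2 : Nat.card {d // d ∈ es} = es.length := by
    have h3 : Nat.card {d // d ∈ es} = Nat.card {d // d ∈ es.toFinset} := by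
      apply Nat.card_congr
      exact Equiv.subtypeEquivRight (fun d => by simp)
    rw [h3, Nat.card_eq_fintype_card, Fintype.card_coe, List.toFinset_card_of_nodup hesn]
  rw [← h2]
  exact h1

/-- **From the average case to the worst case**, for algorithms that may err. -/
theorem heur (hMAJ : MAJ) (hLISTS : LISTS) (L : Finset ℕ) (A : Input →. Bool) (hA : Partrec A)
    (N : List (ℕ × Bool) → ℕ → ℕ) (hN : Computable₂ N)
    (h : ∀ w m, m ≤ N w m ∧ m * wrong A L w (N w m) < L.card ^ ((N w m).choose 2)) :
    ∃ B : Input →. Bool, Partrec B ∧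
      ∀ n x, x.length = n.choose 2 → (∀ t ∈ x, t ∈ L) → ∀ w, Right B n x w := by
  classical
  obtain ⟨fL, hfL, hfL'⟩ := hLISTS L
  let mm : Input → ℕ := fun a => 2 * (fL (a.1.choose 2)).length + a.1
  let nn : Input → ℕ := fun a => N (cut a.1 a.2.2) (mm a)
  let ys : Input → List Input := fun a =>
    (fL ((nn a).choose 2 - a.1.choose 2)).map fun d => (nn a, a.2.1 ++ d, cut a.1 a.2.2)
  have hfst : Computable fun a : Input => a.1 := Computable.fst
  have hch : Computable fun a : Input => a.1.choose 2 := primrec_choose.to_comp.comp hfst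
  have hmm : Computable mm :=
    (Primrec.nat_add.to_comp).comp ((Primrec.nat_mul.to_comp).comp (Computable.const 2)
      (Primrec.list_length.to_comp.comp (hfL.comp hch))) hfst
  have hnn : Computable nn := hN.comp cut_comp hmm
  have hG : Primrec fun q : List (List ℕ) × (ℕ × List ℕ × List (ℕ × Bool)) =>
      q.1.map fun d => ((q.2.1, q.2.2.1 ++ d, q.2.2.2) : Input) := by
    apply Primrec.list_map Primrec.fst
    have e1 : Primrec fun z : (List (List ℕ) × (ℕ × List ℕ × List (ℕ × Bool))) × List ℕ =>
        z.1.2.1 := Primrec.fst.comp (Primrec.snd.comp Primrec.fst)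
    have e2 : Primrec fun z : (List (List ℕ) × (ℕ × List ℕ × List (ℕ × Bool))) × List ℕ =>
        z.1.2.2.1 ++ z.2 := Primrec.list_append.comp
          (Primrec.fst.comp (Primrec.snd.comp (Primrec.snd.comp Primrec.fst))) Primrec.snd
    have e3 : Primrec fun z : (List (List ℕ) × (ℕ × List ℕ × List (ℕ × Bool))) × List ℕ =>
        z.1.2.2.2 := Primrec.snd.comp (Primrec.snd.comp (Primrec.snd.comp Primrec.fst))
    exact Primrec.pair e1 (Primrec.pair e2 e3)
  have hys : Computable ys := by
    have h1 : Computable fun a : Input =>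
        ((fL ((nn a).choose 2 - a.1.choose 2), (nn a, a.2.1, cut a.1 a.2.2)) :
          List (List ℕ) × (ℕ × List ℕ × List (ℕ × Bool))) := by
      refine Computable.pair (hfL.comp ((Primrec.nat_sub.to_comp).comp
        (primrec_choose.to_comp.comp hnn) hch)) (Computable.pair hnn
          (Computable.pair (Computable.fst.comp Computable.snd) cut_comp))
    exact hG.to_comp.comp h1
  obtain ⟨g, hg, hgm⟩ := hMAJ Input Input inferInstance inferInstance ys (fun p => A p.2) hys
    (hA.comp Computable.snd)
  refine ⟨g, hg, ?_⟩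
  intro k x hx hl w
  set b : Bool := decide (val k x w = 1) with hb
  refine ⟨b, hgm (k, x, w) b ?_, by rw [hb]; simp⟩
  set w' := cut k w with hw'
  set m := mm (k, x, w) with hm
  set n := nn (k, x, w) with hn
  obtain ⟨h1, h2⟩ := h w' m
  change m ≤ n at h1
  change m * wrong A L w' n < L.card ^ (n.choose 2) at h2
  have hmk : m = 2 * L.card ^ (k.choose 2) + k := by
    rw [hm]
    change 2 * (fL (k.choose 2)).length + k = _
    rw [(hfL' (k.choose 2)).2.1]
  have hkn : k ≤ n := by omega
  have hchn : k.choose 2 ≤ n.choose 2 := Nat.choose_le_choose 2 hkn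
  set r := n.choose 2 - k.choose 2 with hr
  have hys' : ys (k, x, w) = (fL r).map fun d => (n, x ++ d, w') := rfl
  rw [hys', List.length_map, List.countP_map, (hfL' r).2.1]
  have hbad := wrong_le A L w' hx hl hkn (fL r) (hfL' r).1 (fun d hd => ((hfL' r).2.2 d).1 hd)
  have hright : ∀ d, Right A n (x ++ d) w' → b ∈ A (n, x ++ d, w') := by
    rintro d ⟨b', hb', he⟩
    have h3 := par_val (emb_range hx hkn d) w
    have h4 : b' = b := by
      have h5 : (b' = true ↔ b = true) := by
        rw [he, hb, decide_eq_true_iff]
        exact h3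
      exact Bool.eq_iff_iff.2 h5
    rw [← h4]
    exact hb'
  have hcount : (fL r).length ≤
      (fL r).countP ((fun z : Input => decide (b ∈ A z)) ∘ fun d => (n, x ++ d, w')) +
        (fL r).countP (fun d => decide (¬ Right A n (x ++ d) w')) := by
    have h5 : (fL r).countP (fun d => !decide (¬ Right A n (x ++ d) w')) ≤
        (fL r).countP ((fun z : Input => decide (b ∈ A z)) ∘ fun d => (n, x ++ d, w')) := by
      apply List.countP_mono_left
      intro d _ hd
      have h6 : Right A n (x ++ d) w' := by simpa using hd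
      simpa using hright d h6
    have h7 := List.length_eq_countP_add_countP (fun d => decide (¬ Right A n (x ++ d) w'))
      (l := fL r)
    have h8 : (fL r).countP (fun a => decide ¬(decide (¬ Right A n (x ++ a) w')) = true) =
        (fL r).countP (fun d => !decide (¬ Right A n (x ++ d) w')) := by
      congr 1
      funext d
      by_cases hd : Right A n (x ++ d) w' <;> simp [hd]
    omega
  rw [(hfL' r).2.1] at hcount
  have hpow : L.card ^ (n.choose 2) = L.card ^ (k.choose 2) * L.card ^ r := by
    rw [← pow_add]
    congr 1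
    omega
  have h9 : 2 * wrong A L w' n < L.card ^ r := by
    by_contra hcon
    push Not at hcon
    have h10 : L.card ^ (k.choose 2) * L.card ^ r ≤
        L.card ^ (k.choose 2) * (2 * wrong A L w' n) := Nat.mul_le_mul_left _ hcon
    have h11 : L.card ^ (k.choose 2) * (2 * wrong A L w' n) ≤ m * wrong A L w' n := by
      rw [hmk]
      nlinarith [Nat.zero_le (k * wrong A L w' n)]
    rw [hpow] at h2
    omega
  change L.card ^ r < 2 * (fL r).countP
    ((fun z : Input => decide (b ∈ A z)) ∘ fun d => (n, x ++ d, w'))
  omega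

end Pool.Agent.N689.ZL
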