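import Pool.Agent.Helper741.Matsumoto

/-!
# Standard parabolic subgroups of Artin groups, part 1: Coxeter groups
-/

set_option autoImplicit false

namespace Pool.Agent.N689.ZL.Par

open CoxeterSystem Pool.Agent.Helper741

variable {B B' : Type} {M : CoxeterMatrix B} [Fintype B] [DecidableEq B]
variable {W : Type} [Group W] (cs : CoxeterSystem M W)

lemma geo_supp (T : Set B) (τ : List B) (hτ : ∀ t ∈ τ, t ∈ T) (v : B → ℝ)
    (hv : ∀ i, i ∉ T → v i = 0) : ∀ i, i ∉ T → geo cs (cs.wordProd τ) v i = 0 := by
  induction τ with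
  | nil => simpa using hv
  | cons a τ ih =>
    intro i hi
    rw [cs.wordProd_cons, map_mul, Module.End.mul_apply, geo_simple, sg_apply]
    have h1 := ih (fun t ht => hτ t (List.mem_cons_of_mem _ ht)) i hi
    have ha : a ∈ T := hτ a List.mem_cons_self
    have hai : i ≠ a := fun h => hi (h ▸ ha)
    simp [h1, ee, hai]

lemma geo_nonneg_of_supp (T : Set B) (w : W)
    (hw : ∀ t ∈ T, cs.length w < cs.length (w * cs.simple t)) (v : B → ℝ) (hv : 0 ≤ v)
    (hs : ∀ i, i ∉ T → v i = 0) : 0 ≤ geo cs w v := by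
  have h1 : v = ∑ i, v i • ee i := by
    ext j
    simp [ee, Finset.sum_apply, Pi.single_apply]
  rw [h1, map_sum]
  apply Finset.sum_nonneg
  intro i _
  rw [map_smul]
  by_cases hi : i ∈ T
  · exact smul_nonneg (hv i) ((geo_nonneg_iff cs w i).2 (hw i hi))
  · rw [hs i hi, zero_smul]

/-- Lengths add. -/
theorem add_len (T : Set B) (w : W)
    (hw : ∀ t ∈ T, cs.length w < cs.length (w * cs.simple t)) (τ : List B)
    (hτ : ∀ t ∈ τ, t ∈ T) (hr : cs.IsReduced τ) :
    cs.length (w * cs.wordProd τ) = cs.length w + τ.length := by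
  induction τ using List.reverseRecOn with
  | nil => simp
  | append_singleton τ t ih =>
    have hτ' : ∀ t ∈ τ, t ∈ T := fun s hs => hτ s (by simp [hs])
    have hr' : cs.IsReduced τ := by simpa using hr.take τ.length
    have h1 := ih hτ' hr'
    have ht : t ∈ T := hτ t (by simp)
    have h2 : cs.length (cs.wordProd τ) < cs.length (cs.wordProd τ * cs.simple t) := by
      have h := hr.eq
      rw [cs.wordProd_append, cs.wordProd_singleton] at h
      rw [h, hr'.eq]
      simp
    have h3 : 0 ≤ geo cs (cs.wordProd τ) (ee t) := (geo_nonneg_iff cs _ t).2 h2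
    have h4 := geo_supp cs T τ hτ' (ee t) (fun i hi => by
      have : i ≠ t := fun h => hi (h ▸ ht)
      simp [ee, this])
    have h5 := geo_nonneg_of_supp cs T w hw _ h3 h4
    rw [← Module.End.mul_apply, ← map_mul] at h5
    have h6 := (geo_nonneg_iff cs _ t).1 h5
    rw [cs.wordProd_append, cs.wordProd_singleton, ← mul_assoc, List.length_append,
      List.length_singleton]
    rcases cs.length_mul_simple (w * cs.wordProd τ) t with h | h <;> omega

/-- Reduced words with letters in `T`. -/
theorem exists_red (T : Set B) (τ : List B) (hτ : ∀ t ∈ τ, t ∈ T) :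
    ∃ τ' : List B, (∀ t ∈ τ', t ∈ T) ∧ cs.IsReduced τ' ∧ cs.wordProd τ' = cs.wordProd τ := by
  induction τ with
  | nil => exact ⟨[], by simp, by simp [CoxeterSystem.IsReduced], rfl⟩
  | cons a τ ih =>
    obtain ⟨σ, h1, h2, h3⟩ := ih (fun t ht => hτ t (List.mem_cons_of_mem _ ht))
    have ha : a ∈ T := hτ a List.mem_cons_self
    rcases cs.length_simple_mul (cs.wordProd σ) a with h | h
    · refine ⟨a :: σ, ?_, ?_, ?_⟩
      · intro t ht
        rcases List.mem_cons.1 ht with rfl | ht
        · exact ha
        · exact h1 t ht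
      · unfold CoxeterSystem.IsReduced
        rw [cs.wordProd_cons, h, h2.eq, List.length_cons]
      · rw [cs.wordProd_cons, cs.wordProd_cons, h3]
    · obtain ⟨j, hj, hj'⟩ := exchange cs σ a (by omega)
      refine ⟨σ.eraseIdx j, fun t ht => h1 t (List.mem_of_mem_eraseIdx ht), ?_, ?_⟩
      · unfold CoxeterSystem.IsReduced
        rw [← hj']
        have h4 := List.length_eraseIdx_add_one (l := σ) (i := j) hj
        have h5 := h2.eq
        omega
      · rw [← hj', cs.wordProd_cons, h3]

/-- The decomposition is unique. -/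
theorem uniq (T : Set B) {w w' : W}
    (hw : ∀ t ∈ T, cs.length w < cs.length (w * cs.simple t))
    (hw' : ∀ t ∈ T, cs.length w' < cs.length (w' * cs.simple t)) (o o' : List B)
    (ho : ∀ t ∈ o, t ∈ T) (ho' : ∀ t ∈ o', t ∈ T)
    (h : w * cs.wordProd o = w' * cs.wordProd o') : w = w' ∧ cs.wordProd o = cs.wordProd o' := by
  obtain ⟨τ, h1, h2, h3⟩ := exists_red cs T (o ++ o'.reverse) (by
    intro t ht
    rcases List.mem_append.1 ht with ht | ht
    · exact ho t ht
    · exact ho' t (List.mem_reverse.1 ht))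
  rw [cs.wordProd_append, cs.wordProd_reverse] at h3
  have e1 : w' = w * cs.wordProd τ := by
    rw [h3, ← mul_assoc, h, mul_inv_cancel_right]
  have e2 : w = w' * cs.wordProd τ.reverse := by
    rw [cs.wordProd_reverse, e1, mul_inv_cancel_right]
  have l1 := add_len cs T w hw τ h1 h2
  have l2 := add_len cs T w' hw' τ.reverse (fun t ht => h1 t (List.mem_reverse.1 ht)) h2.reverse
  rw [← e1] at l1
  rw [← e2, List.length_reverse] at l2
  have hnil : τ = [] := List.length_eq_zero_iff.1 (by omega)
  have e3 : w' = w := by rw [e1, hnil]; simp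
  refine ⟨e3.symm, ?_⟩
  rw [e3] at h
  exact mul_left_cancel h

end Pool.Agent.N689.ZL.Par
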