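import Pool.Agent.N689.ZL.Par1

/-!
# Standard parabolic subgroups of Artin groups, part 2: the action
-/

set_option autoImplicit false

namespace Pool.Agent.N689.ZL.Par

open CoxeterSystem Pool.Agent.Helper741

variable {B B' : Type} {M : CoxeterMatrix B}
variable {W : Type} [Group W] (cs : CoxeterSystem M W)

/-- Minimal representatives of the cosets `w W_T`, where `T` is the image of `ι`. -/
def Q (ι : B' → B) : Set W := {w | ∀ i, cs.length w < cs.length (w * cs.simple (ι i))}

theorem deodhar (ι : B' → B) {w : W} (hw : w ∈ Q cs ι) (b : B) :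
    cs.simple b * w ∈ Q cs ι ∨ ∃ t, cs.simple b * w = w * cs.simple (ι t) := by
  by_cases h : cs.simple b * w ∈ Q cs ι
  · exact Or.inl h
  right
  simp only [Q, Set.mem_setOf_eq, not_forall, not_lt] at h
  obtain ⟨i, hi⟩ := h
  have hlt : cs.length (cs.simple b * w * cs.simple (ι i)) < cs.length (cs.simple b * w) :=
    lt_of_le_of_ne hi (cs.length_mul_simple_ne _ _)
  have hwi := hw i
  refine ⟨i, ?_⟩
  rcases cs.length_simple_mul w b with hb | hb
  · obtain ⟨ω, hω, hωe⟩ := cs.exists_isReduced w⁻¹
    have hlw : cs.length w = ω.length := by rw [← cs.length_inv, hωe, hω.eq]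
    have e1 : cs.wordProd (ω ++ [b]) = (cs.simple b * w)⁻¹ := by
      rw [cs.wordProd_append, cs.wordProd_singleton, ← hωe, mul_inv_rev, cs.inv_simple]
    have h1 : cs.length (cs.simple (ι i) * cs.wordProd (ω ++ [b])) <
        cs.length (cs.wordProd (ω ++ [b])) := by
      rw [e1, cs.length_inv, ← cs.length_inv, mul_inv_rev, inv_inv, cs.inv_simple]
      exact hlt
    obtain ⟨j, hj, hj'⟩ := exchange cs (ω ++ [b]) (ι i) h1
    rw [List.length_append, List.length_singleton] at hj
    rcases Nat.lt_or_ge j ω.length with hjl | hjl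
    · exfalso
      rw [List.eraseIdx_append_of_lt_length hjl, cs.wordProd_append, cs.wordProd_append,
        ← mul_assoc] at hj'
      have h2 := mul_right_cancel hj'
      have h3 := cs.length_wordProd_le (ω.eraseIdx j)
      have h4 := List.length_eraseIdx_add_one (l := ω) (i := j) hjl
      rw [← h2, ← hωe, ← cs.length_inv, mul_inv_rev, inv_inv, cs.inv_simple] at h3
      omega
    · have hje : j = ω.length := by omega
      subst hje
      rw [List.eraseIdx_append_of_length_le (le_refl _)] at hj'
      simp only [Nat.sub_self, List.eraseIdx_zero, List.tail_cons, List.append_nil] at hj'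
      rw [e1, ← hωe] at hj'
      have h5 := congrArg (fun u => u⁻¹) hj'
      simp only [mul_inv_rev, inv_inv, cs.inv_simple] at h5
      -- h5 : s_b * w * s_i = w
      calc cs.simple b * w = cs.simple b * w * cs.simple (ι i) * cs.simple (ι i) := by
            rw [mul_assoc _ (cs.simple (ι i)), cs.simple_mul_simple_self, mul_one]
        _ = w * cs.simple (ι i) := by rw [h5]
  · exfalso
    have h2 : cs.length (w * cs.simple (ι i)) ≤
        cs.length (cs.simple b * w * cs.simple (ι i)) + 1 := by
      have h3 := cs.length_mul_le (cs.simple b) (cs.simple b * w * cs.simple (ι i))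
      rw [← mul_assoc, cs.simple_mul_simple_cancel_left, cs.length_simple] at h3
      omega
    omega

/-- The output of a letter that does not move the coset. -/
noncomputable def out (ι : B' → B) (w : Q cs ι) (b : B) (h : cs.simple b * (w : W) ∉ Q cs ι) :
    B' :=
  ((deodhar cs ι w.2 b).resolve_left h).choose

lemma out_spec (ι : B' → B) (w : Q cs ι) (b : B) (h : cs.simple b * (w : W) ∉ Q cs ι) :
    cs.simple b * (w : W) = w * cs.simple (ι (out cs ι w b h)) :=
  ((deodhar cs ι w.2 b).resolve_left h).choose_spec

variable (M' : CoxeterMatrix B')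

lemma back (ι : B' → B) (w : Q cs ι) (b : B) :
    cs.simple b * (cs.simple b * (w : W)) ∈ Q cs ι := by
  rw [cs.simple_mul_simple_cancel_left]
  exact w.2

open Classical in
/-- The action of a standard generator. -/
noncomputable def step (ι : B' → B) (b : B) : Equiv.Perm (Q cs ι × Artin M') where
  toFun p := if h : cs.simple b * (p.1 : W) ∈ Q cs ι then (⟨_, h⟩, p.2)
    else (p.1, Artin.gen M' (out cs ι p.1 b h) * p.2)
  invFun p := if h : cs.simple b * (p.1 : W) ∈ Q cs ι then (⟨_, h⟩, p.2)
    else (p.1, (Artin.gen M' (out cs ι p.1 b h))⁻¹ * p.2)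
  left_inv := by
    rintro ⟨w, g⟩
    by_cases h : cs.simple b * (w : W) ∈ Q cs ι
    · simp only [dif_pos h, dif_pos (back cs ι w b)]
      ext <;> simp
    · simp only [dif_neg h, inv_mul_cancel_left]
  right_inv := by
    rintro ⟨w, g⟩
    by_cases h : cs.simple b * (w : W) ∈ Q cs ι
    · simp only [dif_pos h, dif_pos (back cs ι w b)]
      ext <;> simp
    · simp only [dif_neg h, mul_inv_cancel_left]

lemma step_pos (ι : B' → B) (b : B) (w : Q cs ι) (g : Artin M')
    (h : cs.simple b * (w : W) ∈ Q cs ι) : step cs M' ι b (w, g) = (⟨_, h⟩, g) := by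
  simp [step, h]

lemma step_neg (ι : B' → B) (b : B) (w : Q cs ι) (g : Artin M')
    (h : cs.simple b * (w : W) ∉ Q cs ι) :
    step cs M' ι b (w, g) = (w, Artin.gen M' (out cs ι w b h) * g) := by
  simp [step, h]

/-- The action of a positive word. -/
theorem word_act (ι : B' → B) (ω : List B) (w : Q cs ι) :
    ∃ (w' : Q cs ι) (o : List B'),
      (∀ g, (ω.map (step cs M' ι)).prod (w, g) = (w', (o.map (Artin.gen M')).prod * g)) ∧
      cs.wordProd ω * w = w' * cs.wordProd (o.map ι) ∧
      o.length + cs.length (w' : W) ≤ ω.length + cs.length (w : W) := by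
  induction ω with
  | nil => exact ⟨w, [], by simp, by simp, by simp⟩
  | cons b ω ih =>
    obtain ⟨w1, o, h1, h2, h3⟩ := ih
    by_cases h : cs.simple b * (w1 : W) ∈ Q cs ι
    · refine ⟨⟨_, h⟩, o, ?_, ?_, ?_⟩
      · intro g
        rw [List.map_cons, List.prod_cons, Equiv.Perm.mul_apply, h1, step_pos cs M' ι b _ _ h]
      · rw [cs.wordProd_cons, mul_assoc, h2, ← mul_assoc]
      · have h4 := cs.length_mul_le (cs.simple b) (w1 : W)
        rw [cs.length_simple] at h4
        simp only [List.length_cons]
        omega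
    · refine ⟨w1, out cs ι w1 b h :: o, ?_, ?_, ?_⟩
      · intro g
        rw [List.map_cons, List.prod_cons, Equiv.Perm.mul_apply, h1, step_neg cs M' ι b _ _ h,
          List.map_cons, List.prod_cons, mul_assoc]
      · rw [cs.wordProd_cons, mul_assoc, h2, ← mul_assoc, out_spec cs ι w1 b h, List.map_cons,
          cs.wordProd_cons, mul_assoc]
      · simp only [List.length_cons]
        omega

/-- Words act injectively on the cosets. -/
theorem word_inj (ι : B' → B) (ω : List B) (x y : Q cs ι) (g g' : Artin M')
    (h : ((ω.map (step cs M' ι)).prod (x, g)).1 = ((ω.map (step cs M' ι)).prod (y, g')).1) :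
    x = y := by
  obtain ⟨x', o, h1, -, -⟩ := word_act cs M' ι ω x
  obtain ⟨y', o', h1', -, -⟩ := word_act cs M' ι ω y
  rw [h1, h1'] at h
  simp only at h
  have h2 : (ω.map (step cs M' ι)).prod
      (x, (o.map (Artin.gen M')).prod⁻¹ * ((o'.map (Artin.gen M')).prod * g')) =
      (ω.map (step cs M' ι)).prod (y, g') := by
    rw [h1, h1', h, mul_inv_cancel_left]
  exact (Prod.ext_iff.1 ((ω.map (step cs M' ι)).prod.injective h2)).1

end Pool.Agent.N689.ZL.Par
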