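import Pool.Agent.N689.ZL.Par2

/-!
# Standard parabolic subgroups of Artin groups, part 3: the braid relations
-/

set_option autoImplicit false

namespace Pool.Agent.N689.ZL.Par

open CoxeterSystem Pool.Agent.Helper741

section geom

variable {B B' : Type} {M : CoxeterMatrix B} [Fintype B] [DecidableEq B]
variable [Fintype B'] [DecidableEq B'] {M' : CoxeterMatrix B'}
variable {W : Type} [Group W] (cs : CoxeterSystem M W)
variable {W' : Type} [Group W'] (cs' : CoxeterSystem M' W')

/-- Extension by zero. -/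
noncomputable def ex (ι : B' → B) (v : B' → ℝ) : B → ℝ := Function.extend ι v 0

omit [Fintype B] [DecidableEq B] [Fintype B'] [DecidableEq B'] in
lemma ex_apply {ι : B' → B} (hι : Function.Injective ι) (v : B' → ℝ) (i : B') :
    ex ι v (ι i) = v i := by
  simp [ex, hι.extend_apply]

omit [Fintype B] [DecidableEq B] [Fintype B'] [DecidableEq B'] in
lemma ex_off {ι : B' → B} (v : B' → ℝ) {i : B} (h : i ∉ Set.range ι) : ex ι v i = 0 := by
  rw [ex, Function.extend_apply' _ _ _ (by simpa using h)]
  rfl

lemma coroot_ex {ι : B' → B} (hι : Function.Injective ι)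
    (hM : ∀ i j, M' i j = M (ι i) (ι j)) (i : B') (v : B' → ℝ) :
    coroot M (ι i) (ex ι v) = coroot M' i v := by
  simp only [coroot, LinearMap.sum_apply, LinearMap.smul_apply, LinearMap.proj_apply,
    smul_eq_mul]
  symm
  apply Fintype.sum_of_injective ι hι
  · intro j hj
    rw [ex_off v hj, mul_zero]
  · intro j
    rw [ex_apply hι, cc, cc, hM]

lemma sg_ex {ι : B' → B} (hι : Function.Injective ι)
    (hM : ∀ i j, M' i j = M (ι i) (ι j)) (i : B') (v : B' → ℝ) :
    sg M (ι i) (ex ι v) = ex ι (sg M' i v) := by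
  rw [sg_apply, sg_apply, coroot_ex hι hM]
  funext j
  by_cases hj : j ∈ Set.range ι
  · obtain ⟨j, rfl⟩ := hj
    rw [ex_apply hι]
    simp only [Pi.sub_apply, Pi.smul_apply, ex_apply hι, ee, Pi.single_apply, hι.eq_iff]
  · rw [ex_off _ hj]
    have h1 : j ≠ ι i := fun h => hj ⟨i, h.symm⟩
    simp [ex_off _ hj, ee, h1]

lemma geo_ex {ι : B' → B} (hι : Function.Injective ι)
    (hM : ∀ i j, M' i j = M (ι i) (ι j)) (o : List B') (v : B' → ℝ) :
    geo cs (cs.wordProd (o.map ι)) (ex ι v) = ex ι (geo cs' (cs'.wordProd o) v) := by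
  induction o with
  | nil => simp
  | cons a o ih =>
    rw [List.map_cons, cs.wordProd_cons, cs'.wordProd_cons, map_mul, map_mul,
      Module.End.mul_apply, Module.End.mul_apply, ih, geo_simple, geo_simple, sg_ex hι hM]

/-- The standard parabolic subgroups of Coxeter groups. -/
lemma cox_inj {ι : B' → B} (hι : Function.Injective ι)
    (hM : ∀ i j, M' i j = M (ι i) (ι j)) (o o' : List B')
    (h : cs.wordProd (o.map ι) = cs.wordProd (o'.map ι)) : cs'.wordProd o = cs'.wordProd o' := by
  apply geo_injective cs'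
  apply LinearMap.ext
  intro v
  have h1 := geo_ex cs cs' hι hM o v
  rw [h, geo_ex cs cs' hι hM o' v] at h1
  funext j
  have h2 := congrFun h1 (ι j)
  rw [ex_apply hι, ex_apply hι] at h2
  exact h2.symm

omit [Fintype B] [DecidableEq B] [Fintype B'] [DecidableEq B'] in
/-- Words which are reduced in the big group are reduced. -/
lemma red_of {ι : B' → B} (hM : ∀ i j, M' i j = M (ι i) (ι j)) (o : List B')
    (h : cs.IsReduced (o.map ι)) : cs'.IsReduced o := by
  have hlift : M'.IsLiftable (fun i => cs.simple (ι i)) := by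
    intro i j
    rw [hM]
    exact cs.simple_mul_simple_pow (ι i) (ι j)
  have hmap : ∀ u : List B', cs'.lift ⟨_, hlift⟩ (cs'.wordProd u) = cs.wordProd (u.map ι) := by
    intro u
    induction u with
    | nil => simp
    | cons a u ih =>
      rw [cs'.wordProd_cons, map_mul, ih, List.map_cons, cs.wordProd_cons]
      simp
  obtain ⟨u, hu, hue⟩ := cs'.exists_isReduced (cs'.wordProd o)
  have h1 := hmap u
  rw [← hue, hmap o] at h1
  have h2 := cs.length_wordProd_le (u.map ι)
  rw [← h1, h.eq, List.length_map, List.length_map] at h2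
  have h3 : cs'.length (cs'.wordProd o) = u.length := by rw [hue, hu.eq]
  have h4 := cs'.length_wordProd_le o
  unfold CoxeterSystem.IsReduced
  omega

/-- The outputs of two reduced words. -/
lemma out_eq {ι : B' → B} (hι : Function.Injective ι)
    (hM : ∀ i j, M' i j = M (ι i) (ι j)) (o o' : List B')
    (h : cs.IsReduced (o.map ι)) (h' : cs.IsReduced (o'.map ι))
    (he : cs.wordProd (o.map ι) = cs.wordProd (o'.map ι)) :
    (o.map (Artin.gen M')).prod = (o'.map (Artin.gen M')).prod :=
  matsumoto M'.toCoxeterSystem (Artin.gen M') Artin.rel o o'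
    (red_of cs M'.toCoxeterSystem hM o h) (red_of cs M'.toCoxeterSystem hM o' h')
    (cox_inj cs M'.toCoxeterSystem hι hM o o' he)

/-- The braid relation at the points where both letters increase the length. -/
theorem rel_min {ι : B' → B} (hι : Function.Injective ι)
    (hM : ∀ i j, M' i j = M (ι i) (ι j)) {b c : B} (hbc : b ≠ c) (h0 : M b c ≠ 0) (x : Q cs ι)
    (hb : cs.length (x : W) < cs.length (cs.simple b * (x : W)))
    (hc : cs.length (x : W) < cs.length (cs.simple c * (x : W))) (g : Artin M') :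
    alt (step cs M' ι b) (step cs M' ι c) (M b c) (x, g) =
      alt (step cs M' ι c) (step cs M' ι b) (M b c) (x, g) := by
  set m := M b c with hm
  obtain ⟨w1, o1, a1, a2, a3⟩ := word_act cs M' ι (aw b c m) x
  obtain ⟨w2, o2, b1, b2, b3⟩ := word_act cs M' ι (aw c b m) x
  have r1 : cs.IsReduced (aw b c m) := isReduced_aw cs hbc (Or.inr le_rfl)
  have r2 : cs.IsReduced (aw c b m) :=
    isReduced_aw cs hbc.symm (Or.inr (by rw [M.symmetric c b]))
  have hx : ∀ t ∈ ({b, c} : Set B), cs.length (x : W)⁻¹ < cs.length ((x : W)⁻¹ * cs.simple t) := by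
    intro t ht
    have e : (x : W)⁻¹ * cs.simple t = (cs.simple t * (x : W))⁻¹ := by
      rw [mul_inv_rev, cs.inv_simple]
    rw [e, cs.length_inv, cs.length_inv]
    rcases ht with rfl | ht
    · exact hb
    · rw [Set.mem_singleton_iff] at ht
      rw [ht]
      exact hc
  have hmem : ∀ (k : ℕ) (i j : B), (i = b ∧ j = c ∨ i = c ∧ j = b) →
      ∀ t ∈ aw i j k, t ∈ ({b, c} : Set B) := by
    intro k
    induction k with
    | zero => intro i j _ t ht; simp [aw] at ht
    | succ k ih =>
      intro i j hij t ht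
      rw [aw_succ, List.mem_cons] at ht
      rcases ht with rfl | ht
      · rcases hij with h | h
        · rw [h.1]; simp
        · rw [h.1]; simp
      · exact ih j i (by tauto) t ht
  have len : ∀ τ : List B, (∀ t ∈ τ, t ∈ ({b, c} : Set B)) → cs.IsReduced τ →
      cs.length (cs.wordProd τ * (x : W)) = τ.length + cs.length (x : W) := by
    intro τ hτ hr
    have h1 := add_len cs {b, c} (x : W)⁻¹ hx τ.reverse
      (fun t ht => hτ t (List.mem_reverse.1 ht)) hr.reverse
    rw [cs.wordProd_reverse, ← mul_inv_rev, cs.length_inv, cs.length_inv,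
      List.length_reverse] at h1
    omega
  have l1 := len _ (hmem m b c (Or.inl ⟨rfl, rfl⟩)) r1
  have l2 := len _ (hmem m c b (Or.inr ⟨rfl, rfl⟩)) r2
  rw [aw_length] at a3 b3 l1 l2
  have red : ∀ (w' : Q cs ι) (o : List B') (u : W), u = (w' : W) * cs.wordProd (o.map ι) →
      cs.length u = m + cs.length (x : W) →
      o.length + cs.length (w' : W) ≤ m + cs.length (x : W) → cs.IsReduced (o.map ι) := by
    intro w' o u hu hl hle
    have h1 := cs.length_mul_le (w' : W) (cs.wordProd (o.map ι))
    rw [← hu, hl] at h1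
    have h2 := cs.length_wordProd_le (o.map ι)
    rw [List.length_map] at h2
    unfold CoxeterSystem.IsReduced
    rw [List.length_map]
    omega
  have i1 := red w1 o1 _ a2 l1 a3
  have i2 := red w2 o2 _ b2 l2 b3
  have heq : cs.wordProd (aw b c m) = cs.wordProd (aw c b m) := by
    rw [wordProd_aw, wordProd_aw]
    exact alt_comm_of_pow (cs.simple_mul_simple_self b) (cs.simple_mul_simple_self c)
      (cs.simple_mul_simple_pow b c)
  have hu := uniq cs (Set.range ι) (w := (w1 : W)) (w' := (w2 : W))
    (by rintro _ ⟨i, rfl⟩; exact w1.2 i) (by rintro _ ⟨i, rfl⟩; exact w2.2 i)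
    (o1.map ι) (o2.map ι) (by intro t ht; obtain ⟨i, -, rfl⟩ := List.mem_map.1 ht; exact ⟨i, rfl⟩)
    (by intro t ht; obtain ⟨i, -, rfl⟩ := List.mem_map.1 ht; exact ⟨i, rfl⟩)
    (by rw [← a2, ← b2, heq])
  have ho := out_eq cs hι hM o1 o2 i1 i2 hu.2
  have hw : w1 = w2 := Subtype.ext hu.1
  have c1 := a1 g
  have c2 := b1 g
  rw [aw_prod] at c1 c2
  rw [c1, c2, ho, hw]

end geom

end Pool.Agent.N689.ZL.Par
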