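import Mathlib

/-!
# Artin groups given by lists of labels; algorithms that never err (project ZL, helper689)
-/

set_option autoImplicit false

namespace Pool.Agent.N689.ZL

/-- The position of the pair `{i, j}` in the list of the labels. -/
def pos (i j : ℕ) : ℕ := (max i j).choose 2 + min i j

/-- The label of `{i, j}`; `0` stands for infinity. -/
def lab (x : List ℕ) (i j : ℕ) : ℕ :=
  if i = j then 1 else if x.getD (pos i j) 0 = 1 then 0 else x.getD (pos i j) 0

/-- Alternating product `a b a ⋯` with `m` factors. -/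
def alt {G : Type} [Group G] (a b : G) (m : ℕ) : G :=
  ((List.range m).map fun t => if Even t then a else b).prod

/-- The Artin group with `n` standard generators and the labels `lab x i j`. -/
abbrev ArtinGroup (n : ℕ) (x : List ℕ) : Type :=
  PresentedGroup {r : FreeGroup (Fin n) | ∃ i j : Fin n, lab x i j ≠ 0 ∧
    r = alt (FreeGroup.of i) (FreeGroup.of j) (lab x i j) *
      (alt (FreeGroup.of j) (FreeGroup.of i) (lab x i j))⁻¹}

/-- The value of a letter: `(i, true)` is the generator number `i`, `(i, false)` its inverse; letters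
with `n ≤ i` are ignored. -/
def letter (n : ℕ) (x : List ℕ) (p : ℕ × Bool) : ArtinGroup n x :=
  if h : p.1 < n then
    (if p.2 then PresentedGroup.of ⟨p.1, h⟩ else (PresentedGroup.of ⟨p.1, h⟩)⁻¹) else 1

/-- The value of a word. -/
def val (n : ℕ) (x : List ℕ) (w : List (ℕ × Bool)) : ArtinGroup n x := (w.map (letter n x)).prod

/-- The inputs: the number of generators, the list of the labels, a word. -/
abbrev Input : Type := ℕ × List ℕ × List (ℕ × Bool)

/-- `φ` embeds the matrix of rank `k` with the labels `x` into the matrix of rank `n` with the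
labels `y`. -/
def Emb (k : ℕ) (x : List ℕ) (n : ℕ) (y φ : List ℕ) : Prop :=
  (∀ i < k, φ.getD i 0 < n) ∧
    ∀ j < k, ∀ i < j, φ.getD i 0 < φ.getD j 0 ∧
      y.getD (pos (φ.getD i 0) (φ.getD j 0)) 0 = x.getD (pos i j) 0

/-- Renaming the letters of a word; the letters `i` with `k ≤ i` are deleted. -/
def ren (k : ℕ) (φ : List ℕ) (w : List (ℕ × Bool)) : List (ℕ × Bool) :=
  w.flatMap fun p => if p.1 < k then [(φ.getD p.1 0, p.2)] else []

/-- **Leaf DOVE**: dovetailing. -/
def DOVE : Prop := ∀ (α β σ : Type) (_ : Primcodable α) (_ : Primcodable β) (_ : Primcodable σ)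
  (f : α × β →. σ), Partrec f → ∃ g : α →. σ, Partrec g ∧
    (∀ a b, (f (a, b)).Dom → (g a).Dom) ∧ ∀ a s, s ∈ g a → ∃ b, s ∈ f (a, b)

open Classical in
/-- **Leaf EMBC**: the condition `Emb` and the renaming are computable. -/
def EMBC : Prop := Computable (fun p : Input × (ℕ × List ℕ × List ℕ) =>
    decide (Emb p.1.1 p.1.2.1 p.2.1 p.2.2.1 p.2.2.2)) ∧
  Computable (fun p : Input × (ℕ × List ℕ × List ℕ) => ren p.1.1 p.2.2.2 p.1.2.2)

/-- **Leaf CNT**: counting matrices of rank `n` that do not contain a given matrix of rank `k`. -/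
def CNT : Prop := ∀ (L : Finset ℕ) (k : ℕ) (x : List ℕ), (∀ p < k.choose 2, x.getD p 0 ∈ L) →
  ∃ c : ℝ, 0 < c ∧ ∃ n₀ : ℕ, ∀ n ≥ n₀, ∀ S : Set (Fin (n.choose 2) → L),
    (∀ y ∈ S, ∀ φ : Fin k → Fin n, StrictMono φ → ∃ i j : Fin k, i < j ∧
      (List.ofFn fun p => (y p : ℕ)).getD (pos (φ i) (φ j)) 0 ≠ x.getD (pos i j) 0) →
    (Nat.card S : ℝ) ≤ Real.exp (-(c * (n : ℝ) ^ 2)) * (L.card : ℝ) ^ (n.choose 2)

end Pool.Agent.N689.ZL
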