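import Pool.Agent.N689.ZL.Stm

/-!
# Random matrices with independent labels (project ZL, helper689)
-/

set_option autoImplicit false

namespace Pool.Agent.N689.ZL

open MeasureTheory

/-- The probability that a random list of `n.choose 2` independent labels with the distribution `p`
belongs to `S`. -/
noncomputable def prob (p : PMF ℕ) (n : ℕ) (S : Set (List ℕ)) : ℝ :=
  ((Measure.pi fun _ : Fin (n.choose 2) => p.toMeasure) {y | List.ofFn y ∈ S}).toReal

/-- **Leaf CNTP**: the probability that a random matrix of rank `n` does not contain a given matrix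
of rank `k`. -/
def CNTP : Prop := ∀ (p : PMF ℕ) (k : ℕ) (x : List ℕ), (∀ i < k.choose 2, p (x.getD i 0) ≠ 0) →
  ∃ c : ℝ, 0 < c ∧ ∃ n₀ : ℕ, ∀ n ≥ n₀, ∀ S : Set (List ℕ),
    (∀ y ∈ S, y.length = n.choose 2 → ∀ φ : Fin k → Fin n, StrictMono φ → ∃ i j : Fin k, i < j ∧
      y.getD (pos (φ i) (φ j)) 0 ≠ x.getD (pos i j) 0) →
    prob p n S ≤ Real.exp (-(c * (n : ℝ) ^ 2))

end Pool.Agent.N689.ZL
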