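import Pool.Agent.N689.ZL.Stm3

/-!
# The list of all lists of a given length (leaf ZL/LISTS of project ZL, helper614)
-/

set_option autoImplicit false

namespace Pool.Agent.N689.ZL

/-- the list of all lists of length `r` with entries in `ls` -/
def allL (ls : List ℕ) (r : ℕ) : List (List ℕ) :=
  Nat.rec [[]] (fun _ (IH : List (List ℕ)) => IH.flatMap fun d => ls.map fun t => t :: d) r

lemma allL_succ (ls : List ℕ) (r : ℕ) :
    allL ls (r + 1) = (allL ls r).flatMap fun d => ls.map fun t => t :: d := rfl

lemma allL_primrec (ls : List ℕ) : Primrec (allL ls) := by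
  refine Primrec.nat_rec₁ [[]] (f := fun _ (IH : List (List ℕ)) => IH.flatMap fun d => ls.map fun t => t :: d) ?_
  refine (Primrec.list_flatMap (f := fun p : ℕ × List (List ℕ) => p.2)
    (g := fun _ d => ls.map fun t => t :: d) Primrec.snd ?_)
  refine (Primrec.list_map (f := fun _ : (ℕ × List (List ℕ)) × List ℕ => ls)
    (g := fun q t => t :: q.2) (Primrec.const ls) ?_)
  exact Primrec.list_cons.comp Primrec.snd (Primrec.snd.comp Primrec.fst)

lemma mem_allL (ls : List ℕ) (r : ℕ) : ∀ d, d ∈ allL ls r ↔ d.length = r ∧ ∀ t ∈ d, t ∈ ls := by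
  induction r with
  | zero =>
    intro d
    have : allL ls 0 = [[]] := rfl
    rw [this, List.mem_singleton]
    constructor
    · rintro rfl
      simp
    · rintro ⟨h, -⟩
      exact List.length_eq_zero_iff.1 h
  | succ r ih =>
    intro d
    rw [allL_succ, List.mem_flatMap]
    constructor
    · rintro ⟨e, he, hd⟩
      rw [List.mem_map] at hd
      obtain ⟨t, ht, rfl⟩ := hd
      obtain ⟨h1, h2⟩ := (ih e).1 he
      refine ⟨by simp [h1], ?_⟩
      intro u hu
      rcases List.mem_cons.1 hu with rfl | hu
      · exact ht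
      · exact h2 u hu
    · rintro ⟨h1, h2⟩
      cases d with
      | nil => simp at h1
      | cons t e =>
        refine ⟨e, (ih e).2 ⟨by simpa using h1, fun u hu => h2 u (List.mem_cons_of_mem _ hu)⟩, ?_⟩
        rw [List.mem_map]
        exact ⟨t, h2 t List.mem_cons_self, rfl⟩

lemma length_allL (ls : List ℕ) (r : ℕ) : (allL ls r).length = ls.length ^ r := by
  induction r with
  | zero => rfl
  | succ r ih =>
    rw [allL_succ, List.length_flatMap]
    simp [ih, pow_succ]

lemma nodup_allL {ls : List ℕ} (h : ls.Nodup) (r : ℕ) : (allL ls r).Nodup := by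
  induction r with
  | zero => exact List.nodup_singleton _
  | succ r ih =>
    rw [allL_succ, List.nodup_flatMap]
    refine ⟨fun d _ => h.map fun a b hab => (List.cons.inj hab).1, ?_⟩
    refine ih.imp fun {d e} hde => ?_
    rw [Function.onFun, List.disjoint_left]
    intro x hx hx'
    rw [List.mem_map] at hx hx'
    obtain ⟨t, -, rfl⟩ := hx
    obtain ⟨u, -, hu⟩ := hx'
    exact hde (List.cons.inj hu).2.symm

/-- **Leaf LISTS**: the list of all lists of length `r` with entries in `L` is computable. -/
theorem t_LISTS : LISTS := by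
  intro L
  refine ⟨allL L.toList, (allL_primrec _).to_comp, fun r => ⟨nodup_allL L.nodup_toList r, ?_, fun d => ?_⟩⟩
  · rw [length_allL, Finset.length_toList]
  · rw [mem_allL]
    simp only [Finset.mem_toList]

end Pool.Agent.N689.ZL
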