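import Pool.Agent.N689.ZL.Stm3

/-!
Leaf MAJ of the project ZL of helper689: the majority vote is partial recursive (helper787).
-/

set_option autoImplicit false

namespace Pool.Agent.N689.ZL

open Encodable Nat.Partrec

/-- number of inputs of the list `l` for which the code `c` has given the answer `v` by stage `s` -/
def majcnt (c : Code) (v : Bool) (p : List ℕ × ℕ) : ℕ :=
  (p.1.filterMap fun n => (Code.evaln p.2 c n).bind fun x =>
    if x = encode v then some x else none).length

theorem majcnt_primrec (c : Code) (v : Bool) : Primrec (majcnt c v) := by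
  refine Primrec.list_length.comp (Primrec.listFilterMap Primrec.fst ?_)
  show Primrec fun q : (List ℕ × ℕ) × ℕ => (Code.evaln q.1.2 c q.2).bind fun x =>
    if x = encode v then some x else none
  refine Primrec.option_bind ?_ ?_
  · exact Code.primrec_evaln.comp
      (((Primrec.snd.comp Primrec.fst).pair (Primrec.const c)).pair Primrec.snd)
  · show Primrec fun q : ((List ℕ × ℕ) × ℕ) × ℕ => if q.2 = encode v then some q.2 else none
    exact Primrec.ite (Primrec.eq.comp Primrec.snd (Primrec.const _))
      (Primrec.option_some.comp Primrec.snd) (Primrec.const none)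

/-- the vote at stage `s` -/
def majvote (c : Code) (p : List ℕ × ℕ) : Option Bool :=
  if p.1.length < 2 * majcnt c true p then some true
  else if p.1.length < 2 * majcnt c false p then some false else none

theorem majvote_primrec (c : Code) : Primrec (majvote c) := by
  have h1 : Primrec fun p : List ℕ × ℕ => p.1.length := Primrec.list_length.comp Primrec.fst
  have h2 : ∀ v, Primrec fun p : List ℕ × ℕ => 2 * majcnt c v p := fun v =>
    Primrec.nat_mul.comp (Primrec.const 2) (majcnt_primrec c v)
  exact Primrec.ite (Primrec.nat_lt.comp h1 (h2 true)) (Primrec.const _)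
    (Primrec.ite (Primrec.nat_lt.comp h1 (h2 false)) (Primrec.const _) (Primrec.const _))

theorem majvote_some {c : Code} {p : List ℕ × ℕ} {v : Bool} (h : majvote c p = some v) :
    p.1.length < 2 * majcnt c v p := by
  unfold majvote at h
  split_ifs at h with h1 h2
  · rw [← Option.some_inj.1 h]; exact h1
  · rw [← Option.some_inj.1 h]; exact h2

theorem majvote_ne {c : Code} {p : List ℕ × ℕ} {v : Bool} (h : p.1.length < 2 * majcnt c v p) :
    majvote c p ≠ Option.none := by
  unfold majvote
  by_cases h1 : p.1.length < 2 * majcnt c true p
  · rw [if_pos h1]; exact Option.some_ne_none _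
  · rw [if_neg h1]
    cases v
    · rw [if_pos h]; exact Option.some_ne_none _
    · exact absurd h h1

theorem t_MAJ : MAJ := by
  classical
  intro α β _ _ ys f hys hf
  obtain ⟨c, hc⟩ := Code.exists_code.1 hf
  have hcv : ∀ (p : α × β) (x : ℕ), x ∈ Code.eval c (encode p) ↔ ∃ s ∈ f p, encode s = x := by
    intro p x
    rw [hc]
    simp only [encodek, Part.coe_some, Part.bind_some, Part.mem_map_iff]
  have hcv' : ∀ (p : α × β) (v : Bool), encode v ∈ Code.eval c (encode p) ↔ v ∈ f p := by
    intro p v
    rw [hcv]
    constructor
    · rintro ⟨s, hs, he⟩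
      rwa [← Encodable.encode_injective he]
    · intro h
      exact ⟨v, h, rfl⟩
  let G : α → List ℕ := fun a => (ys a).map fun z => encode (a, z)
  have hG : Computable G := by
    have h1 : Primrec fun p : α × List β => p.2.map fun z => encode (p.1, z) := by
      refine Primrec.list_map Primrec.snd ?_
      show Primrec fun q : (α × List β) × β => encode (q.1.1, q.2)
      exact Primrec.encode.comp ((Primrec.fst.comp Primrec.fst).pair Primrec.snd)
    exact h1.to_comp.comp (Computable.id.pair hys)
  let h : α → ℕ → Option Bool := fun a s => majvote c (G a, s)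
  have hh : Computable₂ h :=
    (majvote_primrec c).to_comp.comp ((hG.comp Computable.fst).pair Computable.snd)
  have hlen : ∀ a, (G a).length = (ys a).length := fun a => List.length_map _
  have hcnt : ∀ a s v, majcnt c v (G a, s) =
      (ys a).countP fun z => decide (encode v ∈ Code.evaln s c (encode (a, z))) := by
    intro a s v
    unfold majcnt
    rw [List.length_filterMap_eq_countP, List.countP_map]
    refine List.countP_congr fun z _ => ?_
    simp only [Function.comp_apply, decide_eq_true_eq]
    cases hz : Code.evaln s c (encode (a, z)) with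
    | none => simp
    | some x =>
      simp only [Option.bind_some, Option.mem_def, Option.some_inj]
      split_ifs with hx
      · simp [hx]
      · simp [hx]
  refine ⟨fun a => Nat.rfindOpt (h a), Partrec.rfindOpt hh, fun a b hab => ?_⟩
  -- the stage
  have hst : ∃ s, ∀ z ∈ ys a, b ∈ f (a, z) → encode b ∈ Code.evaln s c (encode (a, z)) := by
    have key : ∀ l : List β, ∃ s, ∀ z ∈ l, b ∈ f (a, z) →
        encode b ∈ Code.evaln s c (encode (a, z)) := by
      intro l
      induction l with
      | nil => exact ⟨0, fun z hz => by simp at hz⟩
      | cons w l ih =>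
        obtain ⟨s, hs⟩ := ih
        by_cases hw : b ∈ f (a, w)
        · obtain ⟨k, hk⟩ := Code.evaln_complete.1 ((hcv' (a, w) b).2 hw)
          refine ⟨max s k, fun z hz hb => ?_⟩
          rcases List.mem_cons.1 hz with rfl | hz
          · exact Code.evaln_mono (le_max_right _ _) hk
          · exact Code.evaln_mono (le_max_left _ _) (hs z hz hb)
        · refine ⟨s, fun z hz hb => ?_⟩
          rcases List.mem_cons.1 hz with rfl | hz
          · exact absurd hb hw
          · exact hs z hz hb
    exact key _
  have hdom : (Nat.rfindOpt (h a)).Dom := by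
    rw [Nat.rfindOpt_dom]
    obtain ⟨s, hs⟩ := hst
    have h1 : (G a).length < 2 * majcnt c b (G a, s) := by
      rw [hlen, hcnt]
      refine lt_of_lt_of_le hab (Nat.mul_le_mul_left 2 ?_)
      refine List.countP_mono_left fun z hz hb => ?_
      simp only [decide_eq_true_eq] at hb ⊢
      exact hs z hz hb
    have h2 := majvote_ne (c := c) (p := (G a, s)) (v := b) h1
    obtain ⟨v, hv⟩ := Option.ne_none_iff_exists'.1 h2
    exact ⟨s, v, hv⟩
  obtain ⟨v, hv⟩ := Part.dom_iff_mem.1 hdom
  obtain ⟨n, hn⟩ := Nat.rfindOpt_spec hv
  have h3 : (G a).length < 2 * majcnt c v (G a, n) := majvote_some hn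
  rw [hlen, hcnt] at h3
  have h4 : ((ys a).countP fun z => decide (encode v ∈ Code.evaln n c (encode (a, z)))) ≤
      (ys a).countP fun z => decide (v ∈ f (a, z)) := by
    refine List.countP_mono_left fun z _ hb => ?_
    simp only [decide_eq_true_eq] at hb ⊢
    exact (hcv' (a, z) v).1 (Code.evaln_sound hb)
  by_cases hvb : v = b
  · subst hvb; exact hv
  · exfalso
    have h5 : ((ys a).countP fun z => decide (b ∈ f (a, z))) +
        ((ys a).countP fun z => decide (v ∈ f (a, z))) ≤ (ys a).length := by
      have h6 : ((ys a).countP fun z => decide (v ∈ f (a, z))) ≤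
          (ys a).countP fun z => ! decide (b ∈ f (a, z)) := by
        refine List.countP_mono_left fun z _ hb => ?_
        simp only [decide_eq_true_eq, Bool.not_eq_true', decide_eq_false_iff_not] at hb ⊢
        intro hb'
        exact hvb (Part.mem_unique hb hb')
      have h7 := List.length_eq_countP_add_countP (l := ys a)
        (fun z => decide (b ∈ f (a, z)))
      have h8 : ((ys a).countP fun z => ! decide (b ∈ f (a, z))) =
          (ys a).countP fun z => decide ¬ decide (b ∈ f (a, z)) = true := by
        refine List.countP_congr fun z _ => by simp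
      omega
    have hab' : (ys a).length < 2 * ((ys a).countP fun z => decide (b ∈ f (a, z))) := hab
    omega

end Pool.Agent.N689.ZL
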